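import Pool.Agent.W620.SC.Def
import Pool.Agent.W262.TW.Stm

/-!
# Sections of twists of curves with rational branch points: statements of the parts

(helper623, helper262.)  `SECLOC2` and `VAL` are proved by helper623, `FIN2` by helper262.
-/

namespace Pool.Agent.W623.SecG

open Pool.Agent.W620.SC Polynomial

universe u v w

/-- the local theorem: one root for all factors of even degree -/
def SECLOC2 : Prop :=
  ∀ (A k : Type u) (F : Type v) (Ω : Type w) [CommRing A] [IsDomain A]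
    [IsDiscreteValuationRing A] [Finite (IsLocalRing.ResidueField A)] [Field k] [Algebra A k]
    [IsFractionRing A k] [CharZero k] [Field F] [Field Ω] [Algebra k F] [Algebra F Ω]
    [Algebra k Ω] [IsScalarTower k F Ω] [IsAlgClosed Ω] [Algebra.IsAlgebraic F Ω],
    IsUnit (2 : A) → ∀ (f : A[X]), IsUnit f.leadingCoeff → Even f.natDegree → 4 ≤ f.natDegree →
    (f.map (IsLocalRing.residue A)).Separable →
    ∀ ϖ : A, Irreducible ϖ → ∀ (a : k) (t : A) (m : ℤ), IsUnit t →
    a = algebraMap A k t * algebraMap A k ϖ ^ m →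
    ∀ (U : Set (ValuationSubring F)), (∀ O ∈ U, ∀ c : k, algebraMap k F c ∈ O) →
    ∀ (G : GSection k F Ω U) (x y : F),
    algebraMap k F a * y ^ 2 = aeval x (f.map (algebraMap A k)) → Transcendental k x →
    ∃ b : A, (Odd m → f.eval b ∈ IsLocalRing.maximalIdeal A) ∧
    ∀ r : A[X], IsUnit r.leadingCoeff → Even r.natDegree → r ∣ f →
    ∀ (c : k) (β : unramified F Ω U), c ≠ 0 → (∀ σ, G.toHom σ β = β) →
    algebraMap k Ω c * (β : Ω) ^ 2 = algebraMap F Ω (aeval x (r.map (algebraMap A k))) →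
    (Even m → ∃ (u : A) (j : ℤ), IsUnit u ∧
      c = algebraMap A k u * algebraMap A k ϖ ^ (2 * j)) ∧
    (Odd m → r.eval b ∉ IsLocalRing.maximalIdeal A → ∃ (u e : A) (j : ℤ), IsUnit u ∧
      c = algebraMap A k u * algebraMap A k ϖ ^ (2 * j) ∧
      u * r.eval b - e ^ 2 ∈ IsLocalRing.maximalIdeal A) ∧
    (Odd m → r.eval b ∈ IsLocalRing.maximalIdeal A → ∃ (u : A) (j : ℤ), IsUnit u ∧
      c = algebraMap A k u * algebraMap A k ϖ ^ (2 * j + 1))

/-- the condition on the cross ratios -/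
def CR {K : Type} (e : K → ℤ) : Prop :=
  ∀ i k, i ≠ k → ∃ l l', l ≠ i ∧ l ≠ k ∧ l' ≠ i ∧ l' ≠ k ∧
    ¬ IsSquare ((e i - e l) * (e i - e l') * ((e k - e l) * (e k - e l')))

/-- for the section `G` the square classes of the `x - e l` are those of a point above `e k` -/
def At {K : Type} {F : Type v} {Ω : Type w} [Field F] [Field Ω] [Algebra ℚ F]
    [Algebra F Ω] [Algebra ℚ Ω] [IsScalarTower ℚ F Ω] {U : Set (ValuationSubring F)}
    (G : GSection ℚ F Ω U) (x : F) (e : K → ℤ) (k : K) : Prop :=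
  ∀ l l', l ≠ k → l' ≠ k → ∃ γ : unramified F Ω U, (∀ σ, G.toHom σ γ = γ) ∧
    (γ : Ω) ^ 2 = algebraMap F Ω ((x - (e l : F)) * (x - (e l' : F)) *
      (((e k - e l) * (e k - e l') : ℤ) : F))

/-- some section for the twist by `d` is not attached to a branch point -/
def Bad2 {K : Type} [Fintype K] (e : K → ℤ) (d : ℤ) : Prop :=
  ∃ (F : Type v) (Ω : Type w) (_ : Field F) (_ : Field Ω) (_ : Algebra ℚ F) (_ : Algebra F Ω)
    (_ : Algebra ℚ Ω) (_ : IsScalarTower ℚ F Ω) (_ : IsAlgClosed Ω) (_ : Algebra.IsAlgebraic F Ω)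
    (U : Set (ValuationSubring F)) (G : GSection ℚ F Ω U) (x y : F),
    (∀ O ∈ U, ∀ c : ℚ, algebraMap ℚ F c ∈ O) ∧ Transcendental ℚ x ∧
    (d : F) * y ^ 2 = ∏ k, (x - (e k : F)) ∧ ∀ k, ¬ At G x e k

/-- for almost all `d` all sections are attached to branch points -/
def FIN2 : Prop :=
  ∀ (K : Type) [Fintype K] [DecidableEq K] (e : K → ℤ), Function.Injective e →
    Even (Fintype.card K) → 6 ≤ Fintype.card K → CR e →
    ∃ C : ℝ, ∀ X : ℕ, 2 ≤ X →
      ({d : ℤ | d.natAbs ≤ X ∧ Squarefree d ∧ Bad2.{v, w} e d}.ncard : ℝ) ≤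
        C * X * (Real.log X) ^ (-(1 / 5) : ℝ)

end Pool.Agent.W623.SecG
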