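import Pool.Agent.W623.SecE.Loc
import Pool.Agent.W623.SecG.Stm

/-! # The local theorem with one root for all factors -/

namespace Pool.Agent.W623.SecC

open Pool.Agent.W620.SC Polynomial Pool.Agent.W623.SecE

universe u v

namespace Dat

variable {k : Type*} {A : Type u} {M : Type v} [Field k] [Field A] [Field M] [Algebra k A]
  {D : Dat k A M} {X : Type*} [Fintype X] [DecidableEq X] (B : D.Br X)

namespace Br

variable [CharZero k] [IsAlgClosed A] [Algebra.IsAlgebraic k A]

theorem cls_sum (R : Finset X) (hcard : Even R.card) (j0 : X)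
    (lc : A) (hlcS : lc ∈ D.S) (hlcU : IsU D.V lc) (c : A) (hcS : c ∈ D.S) (β : M) (hβ : β ∈ D.RS)
    (h : D.ι c * β ^ 2 = D.ι lc * ∏ i ∈ R, (B.x - D.ι (B.θ i))) (j : ℤ)
    (hj : IsU D.V (c / D.p ^ j)) : ((j : ZMod 2)) = ∑ i ∈ R, ((B.n i j0 : ZMod 2)) := by
  have hβ0 : β ≠ 0 := by
    rintro rfl
    rw [zero_pow (by norm_num), mul_zero] at h
    exact mul_ne_zero ((_root_.map_ne_zero _).2 hlcU.1)
      (Finset.prod_ne_zero_iff.2 fun i _ => B.ne i) h.symm
  have h1 := (Par.const_unit hlcS hlcU).mul (Par.prod (D := D) R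
    (fun i => (B.x - D.ι (B.θ i)) / (B.x - D.ι (B.θ j0))) (fun i => B.n i j0)
    (fun i _ => B.hn i j0))
  obtain ⟨m, hm⟩ := hcard
  have h2 := h1.mul (Par.sq (D := D) (u := (B.x - D.ι (B.θ j0)) ^ m) (pow_mem (B.mem j0) _)
    (pow_ne_zero _ (B.ne j0)))
  have h3 : (D.ι lc * ∏ i ∈ R, ((B.x - D.ι (B.θ i)) / (B.x - D.ι (B.θ j0)))) *
      ((B.x - D.ι (B.θ j0)) ^ m) ^ 2 = D.ι c * β ^ 2 := by
    rw [Finset.prod_div_distrib, Finset.prod_const, hm, h, ← pow_mul, mul_two]
    have := pow_ne_zero (m + m) (B.ne j0)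
    field_simp
  rw [h3] at h2
  have h4 := (Par.const hcS hj).mul (Par.sq (D := D) hβ hβ0)
  have h5 := h4.unique h2
  push_cast at h5
  rw [add_zero, zero_add, add_zero] at h5
  exact h5

end Br

end Dat

end Pool.Agent.W623.SecC

namespace Pool.Agent.W623.SecG

open Pool.Agent.W620.SC Pool.Agent.W623.SecC Pool.Agent.W623.SecE Polynomial IntermediateField

universe u v w

theorem secloc2' (hA7 : PartA7.{w, w}) (hA8 : PartA8.{w, w}) : SECLOC2.{u, v, w} := by
  classical
  intro A k F Ω _ _ _ _ _ _ _ _ _ _ _ _ _ _ _ _ h2 f hlc hev h4f hs ϖ hϖ a t m ht ha U hU G x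
    y hxyf hxt
  have hac : IsAlgClosure k (algebraicClosure k Ω) := inferInstance
  have hkb : IsAlgClosed (algebraicClosure k Ω) := hac.1
  let _ : Algebra A (algebraicClosure k Ω) :=
    ((algebraMap k (algebraicClosure k Ω)).comp (algebraMap A k)).toAlgebra
  have hst : IsScalarTower A k (algebraicClosure k Ω) :=
    IsScalarTower.of_algebraMap_eq (fun _ => rfl)
  obtain ⟨V, φ, hVa, hVm, hφV, hφq⟩ :=
    W327.SecC.partB1 A k (algebraicClosure k Ω)
  set q := Nat.card (IsLocalRing.ResidueField A) with hq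
  have hq2 : 2 ≤ q := by
    have := Fintype.ofFinite (IsLocalRing.ResidueField A)
    rw [hq, Nat.card_eq_fintype_card]
    exact Fintype.one_lt_card
  have hunit : ∀ b : A, IsUnit b → IsU V (algebraMap A (algebraicClosure k Ω) b) := by
    rintro b ⟨b, rfl⟩
    refine ⟨(b.isUnit.map (algebraMap A (algebraicClosure k Ω))).ne_zero, hVa _, ?_⟩
    have h1 : (algebraMap A (algebraicClosure k Ω) (b : A))⁻¹ =
        algebraMap A (algebraicClosure k Ω) ((b⁻¹ : Aˣ) : A) := by
      refine inv_eq_of_mul_eq_one_right ?_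
      rw [← map_mul, Units.mul_inv, map_one]
    rw [h1]
    exact hVa _
  have hmem_max : ∀ b : A, algebraMap A (algebraicClosure k Ω) b ∈ V.nonunits →
      b ∈ IsLocalRing.maximalIdeal A := by
    intro b hb
    rw [IsLocalRing.mem_maximalIdeal]
    intro h
    exact (hunit b h).not_nonunit hb
  have hAinj : Function.Injective (algebraMap A (algebraicClosure k Ω)) := by
    rw [IsScalarTower.algebraMap_eq A k (algebraicClosure k Ω)]
    exact (algebraMap k (algebraicClosure k Ω)).injective.comp (IsFractionRing.injective A k)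
  have hϖk0 : algebraMap A k ϖ ≠ 0 := by
    rw [Ne, map_eq_zero_iff _ (IsFractionRing.injective A k)]
    exact hϖ.ne_zero
  set p := algebraMap A (algebraicClosure k Ω) ϖ with hp
  have hp0 : p ≠ 0 := by
    rw [hp, Ne, map_eq_zero_iff _ hAinj]
    exact hϖ.ne_zero
  have hpn : p ∈ V.nonunits := hVm _ (by
    rw [hϖ.maximalIdeal_eq]
    exact Ideal.mem_span_singleton_self ϖ)
  have hpk : algebraMap k (algebraicClosure k Ω) (algebraMap A k ϖ) = p := rfl
  have h2V : (2 : algebraicClosure k Ω)⁻¹ ∈ V := by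
    have h1 := (hunit 2 h2).2.2
    rwa [map_ofNat] at h1
  -- the roots
  obtain ⟨hnd, hdist⟩ := roots_distinct V hVa hVm f hlc hs
  set P := f.map (algebraMap A (algebraicClosure k Ω)) with hP
  have hlc0 : algebraMap A (algebraicClosure k Ω) f.leadingCoeff ≠ 0 := (hunit _ hlc).1
  have hlcP : P.leadingCoeff = algebraMap A (algebraicClosure k Ω) f.leadingCoeff :=
    leadingCoeff_map_of_leadingCoeff_ne_zero _ hlc0
  have hP0 : P ≠ 0 := by
    intro h
    apply hlc0
    rw [← hlcP, h, leadingCoeff_zero]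
  have hPdeg : P.natDegree = f.natDegree := natDegree_map_of_leadingCoeff_ne_zero _ hlc0
  have hmemroots : ∀ θ, θ ∈ P.roots.toFinset ↔ aeval θ f = 0 := by
    intro θ
    rw [Multiset.mem_toFinset, mem_roots hP0, IsRoot.def, hP, eval_map]
    rfl
  have hcardX : Fintype.card (Rt P) = f.natDegree := by
    rw [Rt_card P hP0 hnd, hPdeg]
  have haevφ : ∀ (g : A[X]) θ, aeval (φ θ) g = φ (aeval θ g) := by
    intro g θ
    rw [aeval_def, aeval_def]
    change _ = (φ : algebraicClosure k Ω →+* algebraicClosure k Ω) _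
    rw [hom_eval₂]
    congr 1
    ext b
    exact congrArg Subtype.val (φ.commutes (algebraMap A k b)).symm
  have hφroot : ∀ θ, θ ∈ P.roots.toFinset ↔ φ θ ∈ P.roots.toFinset := by
    intro θ
    rw [hmemroots, hmemroots, haevφ, map_eq_zero_iff _ φ.injective]
  let π : Equiv.Perm (Rt P) := φ.toEquiv.subtypeEquiv hφroot
  have hπ : ∀ i : Rt P, φ (i : algebraicClosure k Ω) = (π i : algebraicClosure k Ω) := fun i => rfl
  have hθV : ∀ i : Rt P, (i : algebraicClosure k Ω) ∈ V := fun i =>
    Pool.Agent.W308.SecC.root_mem V hVa f hlc _ ((hmemroots _).1 i.2)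
  have hθd : ∀ i j : Rt P, i ≠ j → IsU V ((i : algebraicClosure k Ω) - j) := by
    intro i j hij
    exact hdist _ (Multiset.mem_toFinset.1 i.2) _ (Multiset.mem_toFinset.1 j.2)
      (fun h => hij (Subtype.ext h))
  -- the splitting field
  set L := IntermediateField.adjoin k {θ : algebraicClosure k Ω | aeval θ f = 0} with hL
  have hLtame : ∀ c ∈ L, c ≠ 0 → ∃ j : ℤ, IsU V (c / p ^ j) := fun c hc hc0 =>
    Pool.Agent.W308.SecC.partB2 A k (algebraicClosure k Ω) V hVa hVm ϖ hϖ f hlc hs c hc hc0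
  set cc : algebraicClosure k Ω := algebraMap k (algebraicClosure k Ω)
    (a / algebraMap A k f.leadingCoeff) with hcc
  have hcu : IsU V (cc / p ^ m) := by
    have h1 : cc / p ^ m = algebraMap A (algebraicClosure k Ω) t /
        algebraMap A (algebraicClosure k Ω) f.leadingCoeff := by
      rw [hcc, ha, map_div₀, map_mul, map_zpow₀, hpk, ← IsScalarTower.algebraMap_apply,
        ← IsScalarTower.algebraMap_apply]
      have h3 : p ^ m ≠ 0 := zpow_ne_zero _ hp0
      field_simp
    rw [h1]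
    exact (hunit t ht).div (hunit _ hlc)
  have hcomp : ∀ g : A[X], ((g.map (algebraMap A k)).map (algebraMap k F)).map (algebraMap F Ω) =
      (g.map (algebraMap A (algebraicClosure k Ω))).map
        (algebraMap (algebraicClosure k Ω) Ω) := by
    intro g
    rw [Polynomial.map_map, Polynomial.map_map, Polynomial.map_map,
      ← IsScalarTower.algebraMap_eq k F Ω, IsScalarTower.algebraMap_eq A k (algebraicClosure k Ω),
      ← RingHom.comp_assoc, ← IsScalarTower.algebraMap_eq k (algebraicClosure k Ω) Ω]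
  have heval : ∀ g : A[X], ((g.map (algebraMap A k)).map (algebraMap k F)).eval x =
      aeval x (g.map (algebraMap A k)) := by
    intro g
    rw [eval_map_algebraMap]
  have hxyΩ : (cc : Ω) * algebraMap F Ω y ^ 2 =
      ∏ i : Rt P, (algebraMap F Ω x - ((i : algebraicClosure k Ω) : Ω)) := by
    have h1 := eq_roots P hP0 hnd P dvd_rfl _ (hcomp f) x
    rw [heval, ← hxyf, RQ_self, map_mul, map_pow, ← IsScalarTower.algebraMap_apply] at h1
    have h3 : ((P.leadingCoeff : algebraicClosure k Ω) : Ω) ≠ 0 := by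
      change algebraMap (algebraicClosure k Ω) Ω P.leadingCoeff ≠ 0
      exact (_root_.map_ne_zero _).2 (leadingCoeff_ne_zero.2 hP0)
    have h5 : (cc : Ω) = algebraMap k Ω a / ((P.leadingCoeff : algebraicClosure k Ω) : Ω) := by
      change algebraMap (algebraicClosure k Ω) Ω cc = _ / algebraMap (algebraicClosure k Ω) Ω _
      rw [hcc, hlcP, map_div₀, map_div₀, ← IsScalarTower.algebraMap_apply]
      rfl
    rw [h5, div_mul_eq_mul_div, h1, mul_div_cancel_left₀ _ h3]
  have htr := tr_const (k := k) (Ω := Ω) hxt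
  have hy0 : y ≠ 0 := by
    rintro rfl
    rw [map_zero, zero_pow (by norm_num), mul_zero] at hxyΩ
    obtain ⟨i, -, hi⟩ := Finset.prod_eq_zero_iff.1 hxyΩ.symm
    exact htr i (sub_eq_zero.1 hi).symm
  obtain ⟨S, hLS, hφS, hSsq, hStame⟩ := Pool.Agent.W933.SecC.partB3 k (algebraicClosure k Ω) V h2V
    (algebraMap A k ϖ) hϖk0 hpn L hLtame φ hφV (by
      have h1 : L.map (φ : algebraicClosure k Ω →ₐ[k] algebraicClosure k Ω) = L := by
        rw [hL, IntermediateField.adjoin_map]
        congr 1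
        ext θ
        constructor
        · rintro ⟨θ', h1, rfl⟩
          exact (hmemroots _).1 ((hφroot θ').1 ((hmemroots _).2 h1))
        · intro h1
          refine ⟨φ.symm θ, ?_, φ.apply_symm_apply θ⟩
          refine (hmemroots _).1 ((hφroot _).2 ?_)
          rw [φ.apply_symm_apply]
          exact (hmemroots _).2 h1
      intro z
      constructor
      · intro h3
        rw [← h1] at h3
        obtain ⟨z', h5, h6⟩ := h3
        have h7 : z' = z := φ.injective h6
        rw [← h7]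
        exact h5
      · intro h3
        rw [← h1]
        exact ⟨z, h3, rfl⟩)
  set D := mkDat U hU G V S (algebraMap A k ϖ) hϖk0 hpn hSsq hStame φ hφV hφS with hD
  have hOk : D.Ok q := mk_ok U hU G V S (algebraMap A k ϖ) hϖk0 hpn hSsq hStame φ hφV hφS hA7 hA8
    h2V q hq2 hφq
  have hSq : D.HasSq := mk_sq U hU G V S (algebraMap A k ϖ) hϖk0 hpn hSsq hStame φ hφV hφS
  let B : D.Br (Rt P) := mkBr U hU G V S (algebraMap A k ϖ) hϖk0 hpn hSsq hStame φ hφV hφS
    (X := Rt P) (by rw [hcardX]; exact hev) (by rw [hcardX]; exact h4f) (fun i => i)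
    (fun i => hLS (IntermediateField.subset_adjoin k _ ((hmemroots _).1 i.2))) hθd π hπ x y hy0 cc
    (S.algebraMap_mem _) m hcu hxyΩ htr
  have hroot : Odd m → ∃ (r0 : Rt P) (b : A), B.π r0 = r0 ∧ (∀ i, i ≠ r0 → Odd (B.n i r0)) ∧
      (∀ i j, i ≠ r0 → j ≠ r0 → Even (B.n i j)) ∧
      algebraMap A (algebraicClosure k Ω) b - r0 ∈ V.nonunits := by
    intro hm
    obtain ⟨r0, hr0π, hodd, heven⟩ := B.odd hOk hm
    have hfix : φ (r0 : algebraicClosure k Ω) = r0 := by
      rw [hπ]
      exact congrArg Subtype.val hr0π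
    obtain ⟨b, hb⟩ := lift_of_fixed V hVa hVm φ hφq r0 (hθV r0) hfix
    exact ⟨r0, b, hr0π, hodd, heven, hb⟩
  have hroot0 : ∀ r0 : Rt P, P.eval (r0 : algebraicClosure k Ω) = 0 := by
    intro r0
    have h := r0.2
    rw [Multiset.mem_toFinset, mem_roots hP0] at h
    exact h
  obtain ⟨b, hb⟩ : ∃ b : A, Odd m → ∃ (r0 : Rt P), B.π r0 = r0 ∧ (∀ i, i ≠ r0 → Odd (B.n i r0)) ∧
      (∀ i j, i ≠ r0 → j ≠ r0 → Even (B.n i j)) ∧
      algebraMap A (algebraicClosure k Ω) b - r0 ∈ V.nonunits := by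
    by_cases hm : Odd m
    · obtain ⟨r0, b, h⟩ := hroot hm
      exact ⟨b, fun _ => ⟨r0, h⟩⟩
    · exact ⟨0, fun h => absurd h hm⟩
  refine ⟨b, ?_, ?_⟩
  · intro hm
    obtain ⟨r0, -, -, -, hb'⟩ := hb hm
    apply hmem_max
    have h1 := eval_congr V hVa f b r0 (hθV r0) hb'
    rw [hroot0, sub_zero] at h1
    exact h1
  intro r hlcr hevr hrf c β hc0 hβ hcβ
  set Q : (algebraicClosure k Ω)[X] := r.map (algebraMap A (algebraicClosure k Ω)) with hQ
  have hQP : Q ∣ P := Polynomial.map_dvd _ hrf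
  have hlcQ : Q.leadingCoeff = algebraMap A (algebraicClosure k Ω) r.leadingCoeff :=
    leadingCoeff_map_of_leadingCoeff_ne_zero _ (hunit _ hlcr).1
  have hdegQ : Q.natDegree = r.natDegree :=
    natDegree_map_of_leadingCoeff_ne_zero _ (hunit _ hlcr).1
  have hcardR : Even (RQ P Q).card := by
    rw [RQ_card P Q hP0 hQP hnd, hdegQ]
    exact hevr
  have hRπ : ∀ (j : Rt P), j ∈ RQ P Q ↔ B.π j ∈ RQ P Q := by
    intro j
    rw [mem_RQ, mem_RQ, IsRoot.def, IsRoot.def, hQ, eval_map, eval_map]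
    change aeval (j : algebraicClosure k Ω) r = 0 ↔
      aeval (φ (j : algebraicClosure k Ω)) r = 0
    rw [haevφ, map_eq_zero_iff _ φ.injective]
  have hβRS : β ∈ D.RS := fun σ _ => hβ σ
  have heq : D.ι (algebraMap k (algebraicClosure k Ω) c) * β ^ 2 =
      D.ι (algebraMap A (algebraicClosure k Ω) r.leadingCoeff) *
        ∏ j ∈ RQ P Q, (B.x - D.ι (B.θ j)) := by
    apply (algebraMap (unramified F Ω U) Ω).injective
    rw [map_mul, map_mul, map_pow, map_prod]
    have h1 := eq_roots P hP0 hnd Q hQP _ (hcomp r) x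
    rw [heval, ← hcβ, hlcQ] at h1
    exact h1
  have hkunit : ∀ b : A, IsUnit b → ∀ j : ℤ,
      IsU V (algebraMap k (algebraicClosure k Ω)
        (algebraMap A k b * algebraMap A k ϖ ^ j) / p ^ j) := by
    intro b hb j
    have h1 : algebraMap k (algebraicClosure k Ω)
        (algebraMap A k b * algebraMap A k ϖ ^ j) / p ^ j =
        algebraMap A (algebraicClosure k Ω) b := by
      rw [map_mul, map_zpow₀, hpk, ← IsScalarTower.algebraMap_apply]
      have h3 : p ^ j ≠ 0 := zpow_ne_zero _ hp0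
      field_simp
    rw [h1]
    exact hunit b hb
  have hlcS : algebraMap A (algebraicClosure k Ω) r.leadingCoeff ∈ D.S :=
    D.S.algebraMap_mem (algebraMap A k r.leadingCoeff)
  obtain ⟨u, j, huj⟩ := exists_unit_zpow ϖ hϖ c hc0
  have hparj : ∀ j0, ((j : ZMod 2)) = ∑ i ∈ RQ P Q, ((B.n i j0 : ZMod 2)) := by
    intro j0
    refine B.cls_sum (RQ P Q) hcardR j0 _ hlcS (hunit _ hlcr) _
      (D.S.algebraMap_mem c) β hβRS heq j ?_
    rw [huj]
    exact hkunit u u.isUnit j
  have hne : Nonempty (Rt P) := Fintype.card_pos_iff.1 (by rw [hcardX]; omega)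
  refine ⟨fun hm => ?_, fun hm hrb => ?_, fun hm hrb => ?_⟩
  · obtain ⟨j0⟩ := hne
    have h1 : Even j := by
      apply zmod2_even
      rw [hparj j0]
      exact Finset.sum_eq_zero fun i _ => zmod2_of_even (B.even hOk hm i j0)
    obtain ⟨j', rfl⟩ := h1
    exact ⟨u, j', u.isUnit, by rw [huj, two_mul]⟩
  · obtain ⟨r0, hr0π, hodd, heven, hb'⟩ := hb hm
    have hev0 : Q.eval (r0 : algebraicClosure k Ω) =
        algebraMap A (algebraicClosure k Ω) r.leadingCoeff *
        ∏ i ∈ RQ P Q, (B.θ r0 - B.θ i) := by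
      have h1 := RQ_eval₂ P Q hP0 hQP hnd (RingHom.id (algebraicClosure k Ω)) r0
      rw [eval₂_id, hlcQ] at h1
      exact h1
    have hnotin : r0 ∉ RQ P Q := by
      intro h
      apply hrb
      apply hmem_max
      have h1 := eval_congr V hVa r b r0 (hθV r0) hb'
      have h3 : Q.eval (r0 : algebraicClosure k Ω) = 0 := by
        rw [mem_RQ] at h
        exact h
      rw [← hQ, h3, sub_zero] at h1
      exact h1
    have hj0 : ∃ j0 : Rt P, j0 ≠ r0 := by
      by_contra hcon
      push Not at hcon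
      have h1 : Fintype.card (Rt P) ≤ 1 := Fintype.card_le_one_iff.2 fun a b => by
        rw [hcon a, hcon b]
      rw [hcardX] at h1
      omega
    obtain ⟨j0, hj0⟩ := hj0
    have h1 : Even j := by
      apply zmod2_even
      rw [hparj j0]
      refine Finset.sum_eq_zero fun i hi => zmod2_of_even (heven i j0 ?_ hj0)
      rintro rfl
      exact hnotin hi
    obtain ⟨j', hj'⟩ := h1
    rw [← two_mul] at hj'
    obtain ⟨ρ, hρφ, hρ⟩ := B.cls_symbol hOk hSq r0 hr0π hodd (RQ P Q) hnotin hRπ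
      hcardR _ (hunit _ hlcr) (φ.commutes (algebraMap A k r.leadingCoeff))
      (algebraMap k (algebraicClosure k Ω) c) β (hβ φ) heq j'
    have hcu' : algebraMap k (algebraicClosure k Ω) c / D.p ^ (2 * j') =
        algebraMap A (algebraicClosure k Ω) u := by
      rw [huj, hj', map_mul, map_zpow₀, hpk, ← IsScalarTower.algebraMap_apply]
      have h3 : p ^ (2 * j') ≠ 0 := zpow_ne_zero _ hp0
      exact mul_div_cancel_right₀ _ h3
    rw [← hev0, hcu'] at hρ
    have hQV : Q.eval (r0 : algebraicClosure k Ω) ∈ V := by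
      have h1 := eval_congr V hVa r b r0 (hθV r0) hb'
      have h3 : Q.eval (r0 : algebraicClosure k Ω) =
          algebraMap A (algebraicClosure k Ω) (r.eval b) -
          (algebraMap A (algebraicClosure k Ω) (r.eval b) - Q.eval ↑r0) := by ring
      rw [h3]
      exact sub_mem (hVa _) (V.nonunits_subset h1)
    have hρV : ρ ∈ V := by
      refine mem_of_pow_mem (n := 2) (by norm_num) ?_
      rw [hρ]
      exact mul_mem (hVa _) hQV
    obtain ⟨e, he⟩ := lift_of_fixed V hVa hVm φ hφq ρ hρV hρφ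
    refine ⟨u, e, j', u.isUnit, by rw [huj, hj'], ?_⟩
    apply hmem_max
    have h1 := eval_congr V hVa r b r0 (hθV r0) hb'
    have h3 : algebraMap A (algebraicClosure k Ω) (u * r.eval b - e ^ 2) =
        algebraMap A (algebraicClosure k Ω) u *
          (algebraMap A (algebraicClosure k Ω) (r.eval b) - Q.eval ↑r0) +
        (-(algebraMap A (algebraicClosure k Ω) e + ρ)) *
          (algebraMap A (algebraicClosure k Ω) e - ρ) := by
      rw [map_sub, map_mul, map_pow]
      linear_combination -hρ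
    rw [h3]
    exact add_mem (nonunit_mul (hVa _) h1) (nonunit_mul (neg_mem (add_mem (hVa _) hρV)) he)
  · obtain ⟨r0, hr0π, hodd, heven, hb'⟩ := hb hm
    have hev0 : Q.eval (r0 : algebraicClosure k Ω) =
        algebraMap A (algebraicClosure k Ω) r.leadingCoeff *
        ∏ i ∈ RQ P Q, (B.θ r0 - B.θ i) := by
      have h1 := RQ_eval₂ P Q hP0 hQP hnd (RingHom.id (algebraicClosure k Ω)) r0
      rw [eval₂_id, hlcQ] at h1
      exact h1
    have hin : r0 ∈ RQ P Q := by
      by_contra hnot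
      have h1 := eval_congr V hVa r b r0 (hθV r0) hb'
      have h3 : algebraMap A (algebraicClosure k Ω) (r.eval b) ∈ V.nonunits := hVm _ hrb
      have h5 : Q.eval (r0 : algebraicClosure k Ω) ∈ V.nonunits := by
        have h6 := sub_mem h3 h1
        rwa [sub_sub_cancel] at h6
      rw [hev0] at h5
      refine IsU.not_nonunit ?_ h5
      refine (hunit _ hlcr).mul (IsU.prod _ _ fun i hi => B.hθd _ _ ?_)
      rintro rfl
      exact hnot hi
    have h1 : Odd j := by
      apply zmod2_odd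
      rw [hparj r0, ← Finset.add_sum_erase _ _ hin, w_self (fun i j => ((B.n i j : ZMod 2))) B.coc,
        zero_add]
      have h3 : ∀ i ∈ (RQ P Q).erase r0, ((B.n i r0 : ZMod 2)) = 1 := fun i hi =>
        zmod2_of_odd (hodd i (Finset.ne_of_mem_erase hi))
      rw [Finset.sum_congr rfl h3, Finset.sum_const, Finset.card_erase_of_mem hin, nsmul_eq_mul,
        mul_one]
      rw [ZMod.natCast_eq_one_iff_odd]
      have h5 : 0 < (RQ P Q).card := Finset.card_pos.2 ⟨r0, hin⟩
      obtain ⟨n, hn⟩ := hcardR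
      exact ⟨n - 1, by omega⟩
    obtain ⟨j', hj'⟩ := h1
    exact ⟨u, j', u.isUnit, by rw [huj, hj']⟩

theorem secloc2 : SECLOC2.{u, v, w} := secloc2' allA7 allA8

end Pool.Agent.W623.SecG
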