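import Pool.Agent.W623.SecG.Base

/-! # Sections attached to a branch point stabilise a place above it -/

namespace Pool.Agent.W623.SecG

open Pool.Agent.W623.SecC Polynomial

section val

variable {k M A : Type*} [Field k] [Field M] [Algebra k M] [Field A] [Algebra k A]
  (ι : A →+* M) (hι : ∀ c : k, ι (algebraMap k A c) = algebraMap k M c)
  {W : ValuationSubring M}

include hι in
/-- constants are integral -/
lemma const_mem_val [Algebra.IsAlgebraic k A] (hk : ∀ c : k, algebraMap k M c ∈ W) (a : A) :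
    ι a ∈ W := by
  have h1 : IsIntegral k a := (Algebra.IsAlgebraic.isAlgebraic a).isIntegral
  have h2 : IsIntegral W (ι a) := by
    obtain ⟨p, hp, hpx⟩ := h1
    let j : k →+* W := (algebraMap k M).codRestrict W.toSubring hk
    refine ⟨p.map j, hp.map _, ?_⟩
    rw [Polynomial.eval₂_map]
    have h3 : (algebraMap W M).comp j = ι.comp (algebraMap k A) := by
      ext c
      exact (hι c).symm
    rw [h3, ← hom_eval₂, hpx, map_zero]
  obtain ⟨y, hy⟩ := IsIntegrallyClosed.isIntegral_iff.1 h2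
  rw [← hy]
  exact y.2

include hι in
lemma sqrt_const [IsAlgClosed A] (c : k) (w : M) (hw : w ^ 2 = algebraMap k M c) :
    ∃ a : A, ι a = w := by
  obtain ⟨a, ha⟩ := IsAlgClosed.exists_pow_nat_eq (algebraMap k A c) (n := 2) (by norm_num)
  have h1 : w ^ 2 = ι a ^ 2 := by rw [← map_pow, ha, hι, hw]
  rcases sq_eq_sq_iff_eq_or_eq_neg.1 h1 with h | h
  · exact ⟨a, h.symm⟩
  · exact ⟨-a, by rw [map_neg, h]⟩

include hι in
theorem stable_compositum [Algebra.IsAlgebraic k A] {y : M} (hy : y ∈ W.nonunits) (hy0 : y ≠ 0)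
    (hk : ∀ c : k, algebraMap k M c ∈ W) {T : Subfield M} (hT : Good k W y T)
    (hkT : ∀ c : k, algebraMap k M c ∈ T) (g : M →+* M) (τ : A ≃ₐ[k] A)
    (hg : ∀ a, g (ι a) = ι (τ a)) (hgT : ∀ z ∈ T, g z = z) (z : M)
    (hz : z ∈ Subfield.closure ((T : Set M) ∪ Set.range ι)) : g z ∈ W ↔ z ∈ W := by
  set b := Module.Basis.ofVectorSpace k A with hb
  obtain ⟨J, t, ht, rfl⟩ := repr_compositum ι hkT hι b z hz
  have hW : ∀ a, ι a ∈ W := const_mem_val ι hι hk
  rw [map_sum, Finset.sum_congr rfl (fun i _ => show g (t i * ι (b i)) = t i * ι (τ (b i)) by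
    rw [map_mul, hgT _ (ht i), hg])]
  rw [sum_mem_iff hy hy0 ι hι hW hT J t ht (fun i => τ (b i)) ?_,
    sum_mem_iff hy hy0 ι hι hW hT J t ht b b.linearIndependent]
  exact b.linearIndependent.map' τ.toLinearMap (LinearMap.ker_eq_bot.2 τ.injective)

lemma isU_mul {a b : M} (ha : IsU W a) (hb : IsU W b) : IsU W (a * b) :=
  ⟨mul_ne_zero ha.1 hb.1, mul_mem ha.2.1 hb.2.1, by rw [mul_inv]; exact mul_mem ha.2.2 hb.2.2⟩

/-- square roots of elements congruent to one -/
lemma sign_choice {δ : M} (h : δ ^ 2 - 1 ∈ W.nonunits) :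
    δ - 1 ∈ W.nonunits ∨ -δ - 1 ∈ W.nonunits := by
  have h2 : δ ^ 2 ∈ W := by
    have h3 : δ ^ 2 = (δ ^ 2 - 1) + 1 := by ring
    rw [h3]
    exact add_mem (W.nonunits_subset h) (one_mem _)
  have h1 : δ ∈ W := by
    have h3 : IsIntegral W δ := by
      refine IsIntegral.of_pow (n := 2) (by norm_num) ?_
      exact isIntegral_algebraMap (x := (⟨δ ^ 2, h2⟩ : W))
    obtain ⟨y, hy⟩ := IsIntegrallyClosed.isIntegral_iff.1 h3
    rw [← hy]
    exact y.2
  by_contra hcon
  push Not at hcon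
  have h3 : IsU W (δ - 1) := isU_of_not_nonunit (sub_mem h1 (one_mem _)) hcon.1
  have h4 : IsU W (-δ - 1) := isU_of_not_nonunit (sub_mem (neg_mem h1) (one_mem _)) hcon.2
  have h5 := isU_mul h3 h4
  apply h5.not_nonunit
  have h6 : (δ - 1) * (-δ - 1) = (-1) * (δ ^ 2 - 1) := by ring
  rw [h6]
  exact nonunit_mul (neg_mem (one_mem _)) h

variable {K : Type*} [Fintype K] [DecidableEq K] (e : K → k) (he : Function.Injective e) (d : k)
  (hd : d ≠ 0) (x y : M) (hy0 : y ≠ 0)
  (hxy : algebraMap k M d * y ^ 2 = ∏ l, (x - algebraMap k M (e l)))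

include hd hy0 hxy in
omit [DecidableEq K] in
lemma sub_ne (l : K) : x - algebraMap k M (e l) ≠ 0 := by
  intro h
  have h1 : algebraMap k M d * y ^ 2 ≠ 0 :=
    mul_ne_zero ((_root_.map_ne_zero _).2 hd) (pow_ne_zero _ hy0)
  rw [hxy] at h1
  exact h1 (Finset.prod_eq_zero (Finset.mem_univ l) h)

/-- the field generated by the constants, `x`, `y` and the ratios -/
def M2 : Subfield M :=
  Subfield.closure (Set.range ι ∪ ({x, y} ∪
    {z | ∃ i j, z ^ 2 * (x - algebraMap k M (e j)) = x - algebraMap k M (e i)}))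

include hι he hd hy0 hxy in
/-- the ratios are in the compositum, first case -/
lemma ratio_mem₁ [IsAlgClosed A] (hev : Even (Fintype.card K)) (T : Subfield M)
    (hxT : x ∈ T) (hyT : y ∈ T) (hkT : ∀ c : k, algebraMap k M c ∈ T) (k0 : K) (γ : K → K → M)
    (hγT : ∀ l l', l ≠ k0 → l' ≠ k0 → γ l l' ∈ T)
    (hγ : ∀ l l', l ≠ k0 → l' ≠ k0 → γ l l' ^ 2 = (x - algebraMap k M (e l)) *
      (x - algebraMap k M (e l')) * algebraMap k M ((e k0 - e l) * (e k0 - e l')))
    (i j : K) (hj : j ≠ k0) (z : M)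
    (hz : z ^ 2 * (x - algebraMap k M (e j)) = x - algebraMap k M (e i)) :
    z ∈ Subfield.closure ((T : Set M) ∪ Set.range ι) := by
  have hne := sub_ne e d hd x y hy0 hxy
  -- the criterion
  have key : ∀ (c : k) (t : M), t ∈ T → t ≠ 0 → z ^ 2 = algebraMap k M c * t ^ 2 →
      z ∈ Subfield.closure ((T : Set M) ∪ Set.range ι) := by
    intro c t ht ht0 hzt
    obtain ⟨a, ha⟩ := sqrt_const ι hι c (z / t) (by
      rw [div_pow, hzt, mul_div_cancel_right₀ _ (pow_ne_zero _ ht0)])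
    have h1 : z = ι a * t := by rw [ha, div_mul_cancel₀ _ ht0]
    rw [h1]
    exact mul_mem (Subfield.subset_closure (Or.inr ⟨a, rfl⟩)) (Subfield.subset_closure (Or.inl ht))
  have hE : ∀ l, l ≠ k0 → e k0 - e l ≠ 0 := fun l hl => sub_ne_zero.2 (he.ne hl.symm)
  have hE' : ∀ l l', l ≠ k0 → l' ≠ k0 → algebraMap k M ((e k0 - e l) * (e k0 - e l')) ≠ 0 :=
    fun l l' hl hl' => (_root_.map_ne_zero _).2 (mul_ne_zero (hE l hl) (hE l' hl'))
  have hγ0 : ∀ l l', l ≠ k0 → l' ≠ k0 → γ l l' ≠ 0 := by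
    intro l l' hl hl' h0
    have h1 := hγ l l' hl hl'
    rw [h0, zero_pow (by norm_num)] at h1
    exact mul_ne_zero (mul_ne_zero (hne l) (hne l')) (hE' l l' hl hl') h1.symm
  have hXT : ∀ l, x - algebraMap k M (e l) ∈ T := fun l => sub_mem hxT (hkT _)
  by_cases hi : i = k0
  · subst hi
    obtain ⟨m, hm⟩ := hev
    have hpos : 0 < Fintype.card K := Fintype.card_pos_iff.2 ⟨i⟩
    obtain ⟨n, rfl⟩ : ∃ n, m = n + 1 := ⟨m - 1, by omega⟩
    set Pi : M := ∏ l ∈ Finset.univ.erase i, γ l j with hPi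
    have hPi0 : Pi ≠ 0 := Finset.prod_ne_zero_iff.2 fun l hl =>
      hγ0 l j (Finset.ne_of_mem_erase hl) hj
    set cE : k := ∏ l ∈ Finset.univ.erase i, ((e i - e l) * (e i - e j)) with hcE
    set Pr : M := ∏ l ∈ Finset.univ.erase i, (x - algebraMap k M (e l)) with hPr
    have hPr0 : Pr ≠ 0 := Finset.prod_ne_zero_iff.2 fun l _ => hne l
    have h1 : Pi ^ 2 = Pr * (x - algebraMap k M (e j)) ^ (2 * n + 1) * algebraMap k M cE := by
      rw [hPi, ← Finset.prod_pow, Finset.prod_congr rfl (fun l hl =>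
        hγ l j (Finset.ne_of_mem_erase hl) hj), Finset.prod_mul_distrib, Finset.prod_mul_distrib,
        Finset.prod_const, Finset.card_erase_of_mem (Finset.mem_univ i), Finset.card_univ, hm,
        map_prod]
      have h2 : n + 1 + (n + 1) - 1 = 2 * n + 1 := by omega
      rw [h2]
    have h2 : algebraMap k M d * y ^ 2 = (x - algebraMap k M (e i)) * Pr := by
      rw [hxy, hPr, Finset.mul_prod_erase Finset.univ (fun l => x - algebraMap k M (e l))
        (Finset.mem_univ i)]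
    refine key (d * cE) (y * (x - algebraMap k M (e j)) ^ n / Pi) ?_ ?_ ?_
    · refine div_mem (mul_mem hyT (pow_mem (hXT j) _)) ?_
      exact prod_mem fun l hl => hγT l j (Finset.ne_of_mem_erase hl) hj
    · exact div_ne_zero (mul_ne_zero hy0 (pow_ne_zero _ (hne j))) hPi0
    · rw [div_pow, mul_pow, ← mul_div_assoc, eq_div_iff (pow_ne_zero _ hPi0), h1, map_mul]
      have h3 : z ^ 2 * (Pr * (x - algebraMap k M (e j)) ^ (2 * n + 1) * algebraMap k M cE) =
          (z ^ 2 * (x - algebraMap k M (e j))) * Pr * (x - algebraMap k M (e j)) ^ (2 * n) *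
            algebraMap k M cE := by ring
      rw [h3, hz, ← h2]
      ring
  · refine key ((e k0 - e i) * (e k0 - e j))⁻¹ (γ i j / (x - algebraMap k M (e j)))
      (div_mem (hγT i j hi hj) (hXT j)) (div_ne_zero (hγ0 i j hi hj) (hne j)) ?_
    rw [div_pow, hγ i j hi hj, map_inv₀, ← mul_div_assoc, eq_div_iff (pow_ne_zero _ (hne j)),
      eq_inv_mul_iff_mul_eq₀ (hE' i j hi hj)]
    rw [← hz]
    ring

include hι he hd hy0 hxy in
lemma M2_le [IsAlgClosed A] (hev : Even (Fintype.card K)) (T : Subfield M)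
    (hxT : x ∈ T) (hyT : y ∈ T) (hkT : ∀ c : k, algebraMap k M c ∈ T) (k0 : K) (γ : K → K → M)
    (hγT : ∀ l l', l ≠ k0 → l' ≠ k0 → γ l l' ∈ T)
    (hγ : ∀ l l', l ≠ k0 → l' ≠ k0 → γ l l' ^ 2 = (x - algebraMap k M (e l)) *
      (x - algebraMap k M (e l')) * algebraMap k M ((e k0 - e l) * (e k0 - e l'))) :
    M2 ι e x y ≤ Subfield.closure ((T : Set M) ∪ Set.range ι) := by
  have hne := sub_ne e d hd x y hy0 hxy
  unfold M2
  rw [Subfield.closure_le]
  rintro z (hz | hz | hz)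
  · exact Subfield.subset_closure (Or.inr hz)
  · rcases hz with rfl | hz
    · exact Subfield.subset_closure (Or.inl hxT)
    · rw [Set.mem_singleton_iff.1 hz]
      exact Subfield.subset_closure (Or.inl hyT)
  · obtain ⟨i, j, hij⟩ := hz
    by_cases hj : j = k0
    · by_cases hi : i = k0
      · have h1 : z ^ 2 = 1 := by
          rw [hj, hi] at hij
          have h2 : (z ^ 2 - 1) * (x - algebraMap k M (e k0)) = 0 := by
            rw [sub_mul, hij, one_mul, sub_self]
          rcases mul_eq_zero.1 h2 with h | h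
          · exact sub_eq_zero.1 h
          · exact absurd h (hne k0)
        rcases sq_eq_sq_iff_eq_or_eq_neg.1 (show z ^ 2 = 1 ^ 2 by rw [h1, one_pow]) with h | h
        · rw [h]; exact one_mem _
        · rw [h]; exact neg_mem (one_mem _)
      · have hz0 : z ≠ 0 := by
          rintro rfl
          rw [zero_pow (by norm_num), zero_mul] at hij
          exact hne i hij.symm
        have h1 : z⁻¹ ^ 2 * (x - algebraMap k M (e i)) = x - algebraMap k M (e j) := by
          rw [← hij, inv_pow, ← mul_assoc, inv_mul_cancel₀ (pow_ne_zero _ hz0), one_mul]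
        have h2 := ratio_mem₁ ι hι e he d hd x y hy0 hxy hev T hxT hyT hkT k0 γ hγT hγ j i hi z⁻¹ h1
        rw [← inv_inv z]
        exact inv_mem h2
    · exact ratio_mem₁ ι hι e he d hd x y hy0 hxy hev T hxT hyT hkT k0 γ hγT hγ i j hj z hij

include hι he hd hy0 hxy in
/-- **stability** -/
theorem stable_main [CharZero k] [IsAlgClosed A] [Algebra.IsAlgebraic k A]
    (hev : Even (Fintype.card K)) (hk : ∀ c : k, algebraMap k M c ∈ W) (k0 : K)
    (hx0 : x - algebraMap k M (e k0) ∈ W.nonunits) {I : Type*} (g : I → M →+* M)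
    (τ : I → A ≃ₐ[k] A) (hg : ∀ i a, g i (ι a) = ι (τ i a)) (hgx : ∀ i, g i x = x)
    (hgy : ∀ i, g i y = y)
    (hAt : ∀ l l', l ≠ k0 → l' ≠ k0 → ∃ γ : M, (∀ i, g i γ = γ) ∧
      γ ^ 2 = (x - algebraMap k M (e l)) * (x - algebraMap k M (e l')) *
        algebraMap k M ((e k0 - e l) * (e k0 - e l'))) (z : M) (hz : z ∈ M2 ι e x y) (i : I) :
    g i z ∈ W ↔ z ∈ W := by
  classical
  have hne := sub_ne e d hd x y hy0 hxy
  obtain ⟨-, -, hyn⟩ := Ex_x e he d hd x y hy0 hxy hk k0 hx0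
  obtain ⟨T, hkT, hxT, hyT, hgood, hmin⟩ := good_base e he d hd x y hy0 hxy hk k0 hx0
  have hE : ∀ l, l ≠ k0 → e k0 - e l ≠ 0 := fun l hl => sub_ne_zero.2 (he.ne hl.symm)
  have hE' : ∀ l l', l ≠ k0 → l' ≠ k0 → algebraMap k M ((e k0 - e l) * (e k0 - e l')) ≠ 0 :=
    fun l l' hl hl' => (_root_.map_ne_zero _).2 (mul_ne_zero (hE l hl) (hE l' hl'))
  have hgk : ∀ i (c : k), g i (algebraMap k M c) = algebraMap k M c := by
    intro i c
    rw [← hι, hg, (τ i).commutes]
  -- the normalised roots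
  have hδ : ∀ l l', l ≠ k0 → l' ≠ k0 → ∃ δ : M, (∀ i, g i δ = δ) ∧ δ - 1 ∈ W.nonunits ∧
      (δ * algebraMap k M ((e k0 - e l) * (e k0 - e l'))) ^ 2 =
        (x - algebraMap k M (e l)) * (x - algebraMap k M (e l')) *
        algebraMap k M ((e k0 - e l) * (e k0 - e l')) := by
    intro l l' hl hl'
    obtain ⟨γ, hγ, hγ2⟩ := hAt l l' hl hl'
    set c : M := algebraMap k M ((e k0 - e l) * (e k0 - e l')) with hc
    have hc0 : c ≠ 0 := hE' l l' hl hl'
    have h1 : (γ / c) ^ 2 - 1 ∈ W.nonunits := by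
      have h2 := ((Ex_sub (y := y) e x hk k0 hx0 (e l)).mul hk hy0
        (Ex_sub (y := y) e x hk k0 hx0 (e l'))).mul hk hy0
        ((Ex.const (W := W) (y := y) hk ((e k0 - e l) * (e k0 - e l'))).inv hk
          (mul_ne_zero (hE l hl) (hE l' hl')))
      rw [mul_inv_cancel₀ (mul_ne_zero (hE l hl) (hE l' hl'))] at h2
      unfold Ex at h2
      have h3 : (0 : ℤ) + 0 + -0 = 0 := by norm_num
      rw [h3, zpow_zero, div_one, map_one, ← hc] at h2
      have h4 : (γ / c) ^ 2 =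
          (x - algebraMap k M (e l)) * (x - algebraMap k M (e l')) * c⁻¹ := by
        rw [div_pow, hγ2]
        field_simp
      rw [h4]
      exact h2
    have h5 : ∀ i, g i (γ / c) = γ / c := fun i => by rw [map_div₀, hγ, hc, hgk]
    rcases sign_choice h1 with h | h
    · refine ⟨γ / c, h5, h, ?_⟩
      rw [div_mul_cancel₀ _ hc0, hγ2]
    · refine ⟨-(γ / c), fun i => by rw [map_neg, h5], h, ?_⟩
      rw [neg_mul, div_mul_cancel₀ _ hc0, neg_sq, hγ2]
  choose! δ hδg hδ1 hδ2 using hδ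
  set S : Finset M := (((Finset.univ.erase k0) ×ˢ (Finset.univ.erase k0)).image
    fun p : K × K => δ p.1 p.2) with hS
  have hSmem : ∀ a, a ∈ S ↔ ∃ l l', l ≠ k0 ∧ l' ≠ k0 ∧ δ l l' = a := by
    intro a
    rw [hS, Finset.mem_image]
    constructor
    · rintro ⟨⟨l, l'⟩, h, rfl⟩
      rw [Finset.mem_product] at h
      exact ⟨l, l', Finset.ne_of_mem_erase h.1, Finset.ne_of_mem_erase h.2, rfl⟩
    · rintro ⟨l, l', hl, hl', rfl⟩
      exact ⟨⟨l, l'⟩, Finset.mem_product.2 ⟨Finset.mem_erase.2 ⟨hl, Finset.mem_univ _⟩,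
        Finset.mem_erase.2 ⟨hl', Finset.mem_univ _⟩⟩, rfl⟩
  obtain ⟨T', hTT', hST', hgood', hmin'⟩ := hgood.adjoin hk hyn hy0 S (by
    intro a ha
    obtain ⟨l, l', hl, hl', rfl⟩ := (hSmem a).1 ha
    refine ⟨?_, hδ1 l l' hl hl'⟩
    have h1 := hδ2 l l' hl hl'
    rw [mul_pow] at h1
    have h2 : δ l l' ^ 2 = (x - algebraMap k M (e l)) * (x - algebraMap k M (e l')) *
        (algebraMap k M ((e k0 - e l) * (e k0 - e l')))⁻¹ := by
      have h3 := hE' l l' hl hl'
      field_simp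
      have h4 : (δ l l' ^ 2 * algebraMap k M ((e k0 - e l) * (e k0 - e l')) -
          (x - algebraMap k M (e l)) * (x - algebraMap k M (e l'))) *
          algebraMap k M ((e k0 - e l) * (e k0 - e l')) = 0 := by
        linear_combination h1
      rcases mul_eq_zero.1 h4 with h | h
      · exact sub_eq_zero.1 h
      · exact absurd h h3
    rw [h2]
    exact mul_mem (mul_mem (sub_mem hxT (hkT _)) (sub_mem hxT (hkT _))) (inv_mem (hkT _)))
  -- `T'` is fixed
  have hfix : ∀ i, ∀ z ∈ T', g i z = z := by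
    intro i
    have h1 : T' ≤ (g i).eqLocusField (RingHom.id M) := by
      refine hmin' _ (hmin _ ?_ ?_ ?_) ?_
      · exact fun c => hgk i c
      · exact hgx i
      · exact hgy i
      · intro a ha
        obtain ⟨l, l', hl, hl', rfl⟩ := (hSmem a).1 ha
        exact hδg l l' hl hl' i
    exact fun z hz => h1 hz
  have hz' := M2_le ι hι e he d hd x y hy0 hxy hev T' (hTT' hxT) (hTT' hyT)
    (fun c => hTT' (hkT c)) k0 (fun l l' => δ l l' * algebraMap k M ((e k0 - e l) * (e k0 - e l')))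
    (fun l l' hl hl' => mul_mem (hST' _ ((hSmem _).2 ⟨l, l', hl, hl', rfl⟩)) (hTT' (hkT _)))
    (fun l l' hl hl' => hδ2 l l' hl hl') hz
  exact stable_compositum ι hι hyn hy0 hk hgood' (fun c => hTT' (hkT c)) (g i) (τ i) (hg i)
    (hfix i) z hz'

include hι he hd hy0 hxy in
/-- the section is attached to the branch point if it stabilises a place above it -/
theorem fixed_of_stable [CharZero k] [IsAlgClosed A] (hk : ∀ c : k, algebraMap k M c ∈ W) (k0 : K)
    (hx0 : x - algebraMap k M (e k0) ∈ W.nonunits) {I : Type*} (g : I → M →+* M)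
    (τ : I → A ≃ₐ[k] A) (hg : ∀ i a, g i (ι a) = ι (τ i a)) (hgx : ∀ i, g i x = x)
    (hst : ∀ z ∈ M2 ι e x y, ∀ i, g i z ∈ W ↔ z ∈ W)
    (l l' : K) (hl : l ≠ k0) (hl' : l' ≠ k0)
    (α : M) (hα : α ^ 2 * (x - algebraMap k M (e l')) = x - algebraMap k M (e l)) :
    ∃ z : M, (∀ i, g i z = z) ∧
      z ^ 2 * ((x - algebraMap k M (e l')) * algebraMap k M (e k0 - e l)) =
        (x - algebraMap k M (e l)) * algebraMap k M (e k0 - e l') := by
  have hne := sub_ne e d hd x y hy0 hxy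
  have hE : ∀ l, l ≠ k0 → e k0 - e l ≠ 0 := fun l hl => sub_ne_zero.2 (he.ne hl.symm)
  have hEM : ∀ l, l ≠ k0 → algebraMap k M (e k0 - e l) ≠ 0 :=
    fun l hl => (_root_.map_ne_zero _).2 (hE l hl)
  have hgk : ∀ i (c : k), g i (algebraMap k M c) = algebraMap k M c := by
    intro i c
    rw [← hι, hg, (τ i).commutes]
  obtain ⟨a, ha⟩ := IsAlgClosed.exists_pow_nat_eq
    (algebraMap k A ((e k0 - e l') / (e k0 - e l))) (n := 2) (by norm_num)
  have hz2 : (ι a * α) ^ 2 * ((x - algebraMap k M (e l')) * algebraMap k M (e k0 - e l)) =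
      (x - algebraMap k M (e l)) * algebraMap k M (e k0 - e l') := by
    rw [mul_pow, ← map_pow, ha, hι, map_div₀, ← hα]
    have h1 := hEM l hl
    field_simp
  have hz2' : (ι a * α) ^ 2 = (x - algebraMap k M (e l)) * algebraMap k M (e k0 - e l') *
      ((x - algebraMap k M (e l')) * algebraMap k M (e k0 - e l))⁻¹ := by
    rw [← hz2, mul_assoc, mul_inv_cancel₀ (mul_ne_zero (hne l') (hEM l hl)), mul_one]
  have h1 : (ι a * α) ^ 2 - 1 ∈ W.nonunits := by
    have h2 := ((Ex_sub (y := y) e x hk k0 hx0 (e l)).mul hk hy0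
      (Ex.const (W := W) (y := y) hk (e k0 - e l'))).mul hk hy0
      (((Ex_sub (y := y) e x hk k0 hx0 (e l')).mul hk hy0
        (Ex.const (W := W) (y := y) hk (e k0 - e l))).inv hk
        (mul_ne_zero (hE l' hl') (hE l hl)))
    rw [← hz2', mul_comm (e k0 - e l') (e k0 - e l),
      mul_inv_cancel₀ (mul_ne_zero (hE l hl) (hE l' hl'))] at h2
    unfold Ex at h2
    have h3 : (0 : ℤ) + 0 + -(0 + 0) = 0 := by norm_num
    rwa [h3, zpow_zero, div_one, map_one] at h2
  have hmem : ι a * α ∈ M2 ι e x y :=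
    mul_mem (Subfield.subset_closure (Or.inl ⟨a, rfl⟩))
      (Subfield.subset_closure (Or.inr (Or.inr ⟨l, l', hα⟩)))
  -- the sign
  obtain ⟨z, hz, hzz, hz1⟩ : ∃ z ∈ M2 ι e x y, z ^ 2 = (ι a * α) ^ 2 ∧ z - 1 ∈ W.nonunits := by
    rcases sign_choice h1 with h | h
    · exact ⟨_, hmem, rfl, h⟩
    · exact ⟨_, neg_mem hmem, neg_sq _, h⟩
  refine ⟨z, fun i => ?_, by rw [hzz, hz2]⟩
  have hgs : ∀ l, g i (x - algebraMap k M (e l)) = x - algebraMap k M (e l) := fun l => by
    rw [map_sub, hgx, hgk]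
  have h5 : (g i z) ^ 2 = z ^ 2 := by
    rw [← map_pow, hzz, hz2', map_mul (g i), map_mul (g i), map_inv₀ (g i), map_mul (g i), hgs,
      hgs, hgk, hgk]
  rcases sq_eq_sq_iff_eq_or_eq_neg.1 h5 with h | h
  · exact h
  · exfalso
    have h6 : g i (z - 1) ∈ W.nonunits := by
      rw [ValuationSubring.mem_nonunits_iff_or] at hz1 ⊢
      rcases hz1 with h7 | h7
      · exact Or.inl (by rw [h7, map_zero])
      · refine Or.inr fun h8 => h7 ?_
        rw [← map_inv₀, hst _ (inv_mem (sub_mem hz (one_mem _))) i] at h8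
        exact h8
    have h7 : (2 : M) ∈ W.nonunits := by
      have h8 : (2 : M) = (-1) * ((z - 1) + g i (z - 1)) := by
        rw [map_sub, map_one, h]
        ring
      rw [h8]
      exact nonunit_mul (neg_mem (one_mem _)) (add_mem hz1 h6)
    have h8 : IsU W (2 : M) := by
      have h9 := const_isU hk (c := (2 : k)) two_ne_zero
      rwa [map_ofNat] at h9
    exact h8.not_nonunit h7

end val

end Pool.Agent.W623.SecG
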