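import Pool.Agent.W623.SecG.Val
import Pool.Agent.W623.SecG.Stm
import Pool.Agent.W623.SecE.Glb

/-! # Sections and places above the branch points -/

namespace Pool.Agent.W623.SecG

open Pool.Agent.W620.SC Pool.Agent.W623.SecC Pool.Agent.W623.SecE Polynomial IntermediateField

universe u v w

variable {k : Type u} {F : Type v} {Ω : Type w} [Field k] [Field F] [Field Ω] [Algebra k F]
  [Algebra F Ω] [Algebra k Ω] [IsScalarTower k F Ω]

/-- for the section `G` the square classes of the `x - e l` are those of a point above `e i` -/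
def AtK {U : Set (ValuationSubring F)} (G : GSection k F Ω U) {K : Type*} (x : F) (e : K → k)
    (i : K) : Prop :=
  ∀ l l', l ≠ i → l' ≠ i → ∃ γ : unramified F Ω U, (∀ σ, G.toHom σ γ = γ) ∧
    (γ : Ω) ^ 2 = algebraMap F Ω ((x - algebraMap k F (e l)) * (x - algebraMap k F (e l')) *
      algebraMap k F ((e i - e l) * (e i - e l')))

lemma atK_of_At {F : Type v} {Ω : Type w} [Field F] [Field Ω] [Algebra ℚ F]
    [Algebra F Ω] [Algebra ℚ Ω] [IsScalarTower ℚ F Ω] {U : Set (ValuationSubring F)}
    (G : GSection ℚ F Ω U) {K : Type} (x : F) (e : K → ℤ) (i : K) (h : At G x e i) :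
    AtK G x (fun i => (e i : ℚ)) i := by
  intro l l' hl hl'
  obtain ⟨γ, hγ, hγ2⟩ := h l l' hl hl'
  refine ⟨γ, hγ, ?_⟩
  rw [hγ2]
  congr 2
  · rw [map_intCast, map_intCast]
  · rw [← map_intCast (algebraMap ℚ F)]
    congr 1
    push_cast
    ring

/-- the field generated by the function field, the constants and the ratios -/
noncomputable def Mtwo (k : Type u) {F : Type v} {Ω : Type w} [Field k] [Field F] [Field Ω]
    [Algebra k F] [Algebra F Ω] [Algebra k Ω] [IsScalarTower k F Ω]
    (U : Set (ValuationSubring F)) {K : Type*} (e : K → k) (x : F) :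
    IntermediateField F (unramified F Ω U) :=
  adjoin F ({z | IsAlgebraic k z} ∪ {z | ∃ i j, z ^ 2 * algebraMap F _ (x - algebraMap k F (e j)) =
    algebraMap F _ (x - algebraMap k F (e i))})

section

variable {U : Set (ValuationSubring F)} (hU : ∀ O ∈ U, ∀ c : k, algebraMap k F c ∈ O)
  {K : Type*} (e : K → k) (x y : F)

lemma coe_eq (c : k) : algebraMap k (unramified F Ω U) c =
    algebraMap F (unramified F Ω U) (algebraMap k F c) := by
  apply Subtype.ext
  exact IsScalarTower.algebraMap_apply k F Ω c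

lemma alg_range (z : unramified F Ω U) (hz : IsAlgebraic k z) : z ∈ Set.range (constHom hU) := by
  have h1 : IsAlgebraic k (z : Ω) := by
    have h2 := (isAlgebraic_algHom_iff ((unramified F Ω U).val.restrictScalars k)
      ((unramified F Ω U).val.restrictScalars k).injective).2 hz
    exact h2
  exact ⟨⟨(z : Ω), isAlgebraic_iff_isIntegral.1 h1⟩, Subtype.ext rfl⟩

lemma range_alg (a : algebraicClosure k Ω) : IsAlgebraic k (constHom (F := F) hU a) := by
  have h1 : IsAlgebraic k (a : Ω) := isAlgebraic_iff_isIntegral.2 a.2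
  have h2 : ((unramified F Ω U).val.restrictScalars k) (constHom (F := F) hU a) = (a : Ω) := rfl
  rw [← h2] at h1
  exact (isAlgebraic_algHom_iff _ ((unramified F Ω U).val.restrictScalars k).injective).1 h1

lemma M2_le_Mtwo : M2 (constHom hU) e (algebraMap F (unramified F Ω U) x)
    (algebraMap F (unramified F Ω U) y) ≤ (Mtwo k U e x : IntermediateField F _).toSubfield := by
  unfold M2
  rw [Subfield.closure_le]
  rintro z (hz | hz | hz)
  · obtain ⟨a, rfl⟩ := hz
    exact subset_adjoin F _ (Or.inl (range_alg hU a))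
  · rcases hz with rfl | hz
    · exact (Mtwo k U e x : IntermediateField F _).algebraMap_mem x
    · rw [Set.mem_singleton_iff.1 hz]
      exact (Mtwo k U e x : IntermediateField F _).algebraMap_mem y
  · obtain ⟨i, j, hij⟩ := hz
    refine subset_adjoin F _ (Or.inr ⟨i, j, ?_⟩)
    rw [map_sub, map_sub, ← coe_eq, ← coe_eq]
    exact hij

lemma Mtwo_le_M2 (hF : adjoin k {x, y} = (⊤ : IntermediateField k F)) :
    (Mtwo k U e x : IntermediateField F _).toSubfield ≤
      M2 (constHom hU) e (algebraMap F (unramified F Ω U) x)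
        (algebraMap F (unramified F Ω U) y) := by
  set R := M2 (constHom hU) e (algebraMap F (unramified F Ω U) x)
        (algebraMap F (unramified F Ω U) y) with hR
  have hk : ∀ c : k, algebraMap F (unramified F Ω U) (algebraMap k F c) ∈ R := by
    intro c
    refine Subfield.subset_closure (Or.inl ⟨algebraMap k (algebraicClosure k Ω) c, ?_⟩)
    apply Subtype.ext
    exact IsScalarTower.algebraMap_apply k F Ω c
  have hFR : ∀ z : F, algebraMap F (unramified F Ω U) z ∈ R := by
    intro z
    have hz : z ∈ adjoin k {x, y} := by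
      rw [hF]
      trivial
    induction hz using adjoin_induction with
    | mem z hz =>
      rcases hz with rfl | hz
      · exact Subfield.subset_closure (Or.inr (Or.inl (Or.inl rfl)))
      · rw [Set.mem_singleton_iff.1 hz]
        exact Subfield.subset_closure (Or.inr (Or.inl (Or.inr rfl)))
    | algebraMap c => exact hk c
    | add a b _ _ ha hb => rw [map_add]; exact add_mem ha hb
    | inv a _ ha => rw [map_inv₀]; exact inv_mem ha
    | mul a b _ _ ha hb => rw [map_mul]; exact mul_mem ha hb
  intro z hz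
  replace hz : z ∈ adjoin F ({z : unramified F Ω U | IsAlgebraic k z} ∪
    {z | ∃ i j, z ^ 2 * algebraMap F _ (x - algebraMap k F (e j)) =
    algebraMap F _ (x - algebraMap k F (e i))}) := hz
  induction hz using adjoin_induction with
  | mem z hz =>
    rcases hz with hz | ⟨i, j, hij⟩
    · exact Subfield.subset_closure (Or.inl (alg_range hU z hz))
    · refine Subfield.subset_closure (Or.inr (Or.inr ⟨i, j, ?_⟩))
      rw [map_sub, map_sub, ← coe_eq, ← coe_eq] at hij
      exact hij
  | algebraMap c => exact hFR c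
  | add a b _ _ ha hb => exact add_mem ha hb
  | inv a _ ha => exact inv_mem ha
  | mul a b _ _ ha hb => exact mul_mem ha hb

end

variable [CharZero k] [IsAlgClosed Ω] {U : Set (ValuationSubring F)}
  (hU : ∀ O ∈ U, ∀ c : k, algebraMap k F c ∈ O) (G : GSection k F Ω U)
  {K : Type*} [Fintype K] [DecidableEq K] (e : K → k) (he : Function.Injective e) (d : k)
  (hd : d ≠ 0) (x y : F) (hx : Transcendental k x)
  (hxy : algebraMap k F d * y ^ 2 = ∏ l, (x - algebraMap k F (e l)))

include hx hxy in
omit [DecidableEq K] [CharZero k] in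
lemma y_ne : y ≠ 0 := by
  rintro rfl
  rw [zero_pow (by norm_num), mul_zero] at hxy
  obtain ⟨l, -, hl⟩ := Finset.prod_eq_zero_iff.1 hxy.symm
  apply hx
  rw [sub_eq_zero.1 hl]
  exact isAlgebraic_algebraMap _

include hU he hd hx hxy in
/-- **a section attached to a branch point stabilises a place above it** -/
theorem attached (hev : Even (Fintype.card K)) (k0 : K)
    (hF : adjoin k {x, y} = (⊤ : IntermediateField k F)) (hAt : AtK G x e k0) :
    ∃ W : ValuationSubring (unramified F Ω U),
      (∀ c : k, algebraMap F (unramified F Ω U) (algebraMap k F c) ∈ W) ∧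
      algebraMap F (unramified F Ω U) (x - algebraMap k F (e k0)) ∈ W.nonunits ∧
      (∀ z : F, algebraMap F (unramified F Ω U) z ∈ W → ∃ c : k,
        algebraMap F (unramified F Ω U) (z - algebraMap k F c) ∈ W.nonunits) ∧
      ∀ z ∈ Mtwo k U e x, ∀ σ, G.toHom σ z ∈ W ↔ z ∈ W := by
  have hac : IsAlgClosure k (algebraicClosure k Ω) := inferInstance
  have hkb : IsAlgClosed (algebraicClosure k Ω) := hac.1
  have hcoe : ∀ c : k, algebraMap k (unramified F Ω U) c =
      algebraMap F (unramified F Ω U) (algebraMap k F c) := fun c => by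
    apply Subtype.ext
    exact IsScalarTower.algebraMap_apply k F Ω c
  have hι : ∀ c : k, constHom hU (algebraMap k (algebraicClosure k Ω) c) =
      algebraMap k (unramified F Ω U) c := fun c => rfl
  set x' : unramified F Ω U := algebraMap F (unramified F Ω U) x with hx'
  set y' : unramified F Ω U := algebraMap F (unramified F Ω U) y with hy'
  have hy0 := y_ne e d x y hx hxy
  have hy0' : y' ≠ 0 := (_root_.map_ne_zero _).2 hy0
  have hxy' : algebraMap k (unramified F Ω U) d * y' ^ 2 =
      ∏ l, (x' - algebraMap k (unramified F Ω U) (e l)) := by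
    have h1 := congrArg (algebraMap F (unramified F Ω U)) hxy
    rw [map_mul, map_pow, map_prod, ← hcoe] at h1
    rw [h1]
    exact Finset.prod_congr rfl fun l _ => by rw [map_sub, hcoe]
  have hxtr : Transcendental k x' := by
    intro h
    apply hx
    have h2 := (isAlgebraic_algHom_iff ((unramified F Ω U).val.restrictScalars k)
      ((unramified F Ω U).val.restrictScalars k).injective).2 h
    exact (isAlgebraic_algHom_iff (IsScalarTower.toAlgHom k F Ω) (algebraMap F Ω).injective).1 h2
  obtain ⟨W, hk, hx0⟩ := exists_place x' hxtr (e k0)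
  have hst := stable_main (I := algebraicClosure k Ω ≃ₐ[k] algebraicClosure k Ω) (constHom hU) hι
    e he d hd x' y' hy0' hxy' hev hk k0 hx0
    (fun σ => ((G.toHom σ : unramified F Ω U ≃ₐ[F] unramified F Ω U) :
      unramified F Ω U →+* unramified F Ω U)) (fun σ => σ)
    (fun σ a => Subtype.ext (G.compat σ a (constHom hU a) rfl))
    (fun σ => (G.toHom σ).commutes x) (fun σ => (G.toHom σ).commutes y)
    (by
      intro l l' hl hl'
      obtain ⟨γ, hγ, hγ2⟩ := hAt l l' hl hl'
      refine ⟨γ, hγ, ?_⟩
      apply Subtype.ext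
      change (γ : Ω) ^ 2 = _
      rw [hγ2, hcoe, hcoe, hcoe, hx', ← map_sub, ← map_sub, ← map_mul, ← map_mul]
      rfl)
  refine ⟨W, fun c => ?_, ?_, ?_, fun z hz σ => hst z (Mtwo_le_M2 hU e x y hF hz) σ⟩
  · rw [← hcoe]
    exact hk c
  · rw [map_sub, ← hcoe]
    exact hx0
  · intro z hz
    obtain ⟨T, hkT, hxT, hyT, hgood, -⟩ := good_base e he d hd x' y' hy0' hxy' hk k0 hx0
    obtain ⟨-, -, hyn⟩ := Ex_x e he d hd x' y' hy0' hxy' hk k0 hx0
    have hzT : algebraMap F (unramified F Ω U) z ∈ T := by
      clear hz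
      have hz : z ∈ adjoin k {x, y} := by
        rw [hF]
        trivial
      induction hz using adjoin_induction with
      | mem z hz =>
        rcases hz with rfl | hz
        · exact hxT
        · rw [Set.mem_singleton_iff.1 hz]
          exact hyT
      | algebraMap c => rw [← hcoe]; exact hkT c
      | add a b _ _ ha hb => rw [map_add]; exact add_mem ha hb
      | inv a _ ha => rw [map_inv₀]; exact inv_mem ha
      | mul a b _ _ ha hb => rw [map_mul]; exact mul_mem ha hb
    have hnz : (0 : unramified F Ω U) ∈ W.nonunits := by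
      rw [ValuationSubring.mem_nonunits_iff_or]
      exact Or.inl rfl
    by_cases hz0 : z = 0
    · refine ⟨0, ?_⟩
      rw [hz0, map_zero, sub_zero, map_zero]
      exact hnz
    obtain ⟨n, r, hr, hex⟩ := hgood _ hzT ((_root_.map_ne_zero _).2 hz0)
    rcases lt_trichotomy n 0 with hn | hn | hn
    · exfalso
      have hu := hex.isU hk hr
      apply hu.not_nonunit
      obtain ⟨m, hm⟩ := Int.eq_ofNat_of_zero_le (show 0 ≤ -n by omega)
      have hm' : n = -(m : ℤ) := by omega
      rw [hm', zpow_neg, div_inv_eq_mul, zpow_natCast]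
      exact nonunit_mul hz (pow_nonunit hyn (by omega))
    · subst hn
      refine ⟨r, ?_⟩
      unfold Ex at hex
      rw [zpow_zero, div_one] at hex
      rw [map_sub, ← hcoe]
      exact hex
    · refine ⟨0, ?_⟩
      have h1 := hex.low hk hyn hy0' hn
      unfold Ex at h1
      rw [zpow_zero, div_one, map_zero, sub_zero] at h1
      rw [map_zero, sub_zero]
      exact h1

include hU he hd hx hxy in
/-- uniqueness of the branch point -/
theorem attached_unique (k0 k1 : K)
    (h0 : ∃ W : ValuationSubring (unramified F Ω U),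
      (∀ c : k, algebraMap F (unramified F Ω U) (algebraMap k F c) ∈ W) ∧
      algebraMap F (unramified F Ω U) (x - algebraMap k F (e k0)) ∈ W.nonunits ∧
      ∀ z ∈ Mtwo k U e x, ∀ σ, G.toHom σ z ∈ W ↔ z ∈ W)
    (h1 : ∃ W : ValuationSubring (unramified F Ω U),
      (∀ c : k, algebraMap F (unramified F Ω U) (algebraMap k F c) ∈ W) ∧
      algebraMap F (unramified F Ω U) (x - algebraMap k F (e k1)) ∈ W.nonunits ∧
      ∀ z ∈ Mtwo k U e x, ∀ σ, G.toHom σ z ∈ W ↔ z ∈ W) (l l' : K)
    (hl0 : l ≠ k0) (hl1 : l ≠ k1) (hl0' : l' ≠ k0) (hl1' : l' ≠ k1) :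
    IsSquare ((e k0 - e l) * (e k0 - e l') * ((e k1 - e l) * (e k1 - e l'))) := by
  have hac : IsAlgClosure k (algebraicClosure k Ω) := inferInstance
  have hkb : IsAlgClosed (algebraicClosure k Ω) := hac.1
  have : Normal k (algebraicClosure k Ω) := IsAlgClosure.normal k _
  have hGal : IsGalois k (algebraicClosure k Ω) := ⟨⟩
  have hcoe : ∀ c : k, algebraMap k (unramified F Ω U) c =
      algebraMap F (unramified F Ω U) (algebraMap k F c) := fun c => by
    apply Subtype.ext
    exact IsScalarTower.algebraMap_apply k F Ω c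
  have hι : ∀ c : k, constHom hU (algebraMap k (algebraicClosure k Ω) c) =
      algebraMap k (unramified F Ω U) c := fun c => rfl
  set x' : unramified F Ω U := algebraMap F (unramified F Ω U) x with hx'
  set y' : unramified F Ω U := algebraMap F (unramified F Ω U) y with hy'
  have hy0 := y_ne e d x y hx hxy
  have hy0' : y' ≠ 0 := (_root_.map_ne_zero _).2 hy0
  have hxy' : algebraMap k (unramified F Ω U) d * y' ^ 2 =
      ∏ l, (x' - algebraMap k (unramified F Ω U) (e l)) := by
    have h1 := congrArg (algebraMap F (unramified F Ω U)) hxy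
    rw [map_mul, map_pow, map_prod, ← hcoe] at h1
    rw [h1]
    exact Finset.prod_congr rfl fun l _ => by rw [map_sub, hcoe]
  have hne := sub_ne e d hd x' y' hy0' hxy'
  -- the ratio
  have hc0 : algebraMap k (algebraicClosure k Ω) d ≠ 0 := (_root_.map_ne_zero _).2 hd
  have hθ : Function.Injective (fun i : K => algebraMap k (algebraicClosure k Ω) (e i)) :=
    (algebraMap k (algebraicClosure k Ω)).injective.comp he
  obtain ⟨α, hα⟩ := ratio_root U hU (fun i : K => algebraMap k (algebraicClosure k Ω) (e i)) hθ x y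
    hy0 _ hc0 (by
      have h1 := congrArg (algebraMap F Ω) hxy
      rw [map_mul, map_pow, map_prod, ← IsScalarTower.algebraMap_apply] at h1
      rw [show ((algebraMap k (algebraicClosure k Ω) d : algebraicClosure k Ω) : Ω) =
        algebraMap k Ω d from rfl, h1]
      refine Finset.prod_congr rfl fun l _ => ?_
      rw [map_sub, ← IsScalarTower.algebraMap_apply]
      rfl) (tr_const (k := k) (Ω := Ω) hx) l l'
  have hα' : α ^ 2 * (x' - algebraMap k (unramified F Ω U) (e l')) =
      x' - algebraMap k (unramified F Ω U) (e l) := by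
    rw [hα, hι, hι, div_mul_cancel₀ _ (hne l')]
  have hgι : ∀ σ a, G.toHom σ (constHom hU a) = constHom hU (σ a) := fun σ a =>
    Subtype.ext (G.compat σ a (constHom hU a) rfl)
  have key : ∀ k0 : K, l ≠ k0 → l' ≠ k0 → (∃ W : ValuationSubring (unramified F Ω U),
      (∀ c : k, algebraMap F (unramified F Ω U) (algebraMap k F c) ∈ W) ∧
      algebraMap F (unramified F Ω U) (x - algebraMap k F (e k0)) ∈ W.nonunits ∧
      ∀ z ∈ Mtwo k U e x, ∀ σ, G.toHom σ z ∈ W ↔ z ∈ W) →
      ∃ z : unramified F Ω U, (∀ σ, G.toHom σ z = z) ∧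
      z ^ 2 * ((x' - algebraMap k _ (e l')) * algebraMap k _ (e k0 - e l)) =
        (x' - algebraMap k _ (e l)) * algebraMap k _ (e k0 - e l') := by
    rintro k0 hl hl' ⟨W, hk, hx0, hst⟩
    exact fixed_of_stable (I := algebraicClosure k Ω ≃ₐ[k] algebraicClosure k Ω) (W := W)
      (constHom hU) hι e he d hd x' y' hy0' hxy' (fun c => by rw [hcoe]; exact hk c) k0
      (by rw [hcoe, hx', ← map_sub]; exact hx0)
      (fun σ => ((G.toHom σ : unramified F Ω U ≃ₐ[F] unramified F Ω U) :
        unramified F Ω U →+* unramified F Ω U)) (fun σ => σ) hgι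
      (fun σ => (G.toHom σ).commutes x)
      (fun z hz σ => hst z (M2_le_Mtwo hU e x y hz) σ) l l' hl hl' α hα'
  obtain ⟨z0, hz0, hz0'⟩ := key k0 hl0 hl0' h0
  obtain ⟨z1, hz1, hz1'⟩ := key k1 hl1 hl1' h1
  have hE : ∀ i j : K, i ≠ j → algebraMap k (unramified F Ω U) (e j - e i) ≠ 0 := fun i j hij =>
    (_root_.map_ne_zero _).2 (sub_ne_zero.2 (he.ne hij.symm))
  have hE' : ∀ i j : K, i ≠ j → e j - e i ≠ 0 := fun i j hij => sub_ne_zero.2 (he.ne hij.symm)
  have hz1n : z1 ≠ 0 := by
    rintro rfl
    rw [zero_pow (by norm_num), zero_mul] at hz1'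
    exact mul_ne_zero (hne l) (hE l' k1 hl1') hz1'.symm
  -- the quotient is a constant
  have hw : (z0 / z1) ^ 2 = algebraMap k (unramified F Ω U)
      ((e k0 - e l') * (e k1 - e l) / ((e k0 - e l) * (e k1 - e l'))) := by
    rw [map_div₀, map_mul, map_mul, div_pow, div_eq_div_iff (pow_ne_zero 2 hz1n)
      (mul_ne_zero (hE l k0 hl0) (hE l' k1 hl1'))]
    have h2 : ((x' - algebraMap k _ (e l')) * (x' - algebraMap k _ (e l))) ≠
      (0 : unramified F Ω U) := mul_ne_zero (hne l') (hne l)
    apply mul_left_cancel₀ h2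
    calc (x' - algebraMap k _ (e l')) * (x' - algebraMap k _ (e l)) *
        (z0 ^ 2 * (algebraMap k _ (e k0 - e l) * algebraMap k _ (e k1 - e l')))
        = (z0 ^ 2 * ((x' - algebraMap k _ (e l')) * algebraMap k _ (e k0 - e l))) *
          ((x' - algebraMap k _ (e l)) * algebraMap k _ (e k1 - e l')) := by ring
      _ = _ := by rw [hz0', ← hz1']; ring
  obtain ⟨a, ha⟩ := sqrt_const (constHom hU) hι _ _ hw
  have hafix : a ∈ (⊥ : IntermediateField k (algebraicClosure k Ω)) := by
    apply mem_of_fixed
    intro σ _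
    apply (constHom (F := F) hU).injective
    rw [← hgι, ha, map_div₀, hz0, hz1]
  obtain ⟨b, rfl⟩ := IntermediateField.mem_bot.1 hafix
  have hb : b ^ 2 = (e k0 - e l') * (e k1 - e l) / ((e k0 - e l) * (e k1 - e l')) := by
    apply (algebraMap k (unramified F Ω U)).injective
    rw [← hw, ← ha, hι, map_pow]
  refine ⟨b * ((e k0 - e l) * (e k1 - e l')), ?_⟩
  rw [← sq, mul_pow, hb]
  have h3 := hE' l k0 hl0
  have h4 := hE' l' k1 hl1'
  field_simp

end Pool.Agent.W623.SecG
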