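import Pool.Agent.W623.SecG.Good

/-! # The place above a branch point -/

namespace Pool.Agent.W623.SecG

open Pool.Agent.W623.SecC Polynomial

section place

/-- a place with `x - e` a nonunit -/
theorem exists_place {k M : Type*} [Field k] [Field M] [Algebra k M] (x : M)
    (hx : Transcendental k x) (e : k) : ∃ W : ValuationSubring M,
      (∀ c : k, algebraMap k M c ∈ W) ∧ x - algebraMap k M e ∈ W.nonunits := by
  set P : Ideal k[X] := Ideal.span {X - C e} with hP
  have hPp : P.IsPrime := by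
    rw [hP, Ideal.span_singleton_prime (X_sub_C_ne_zero e)]
    exact (irreducible_X_sub_C e).prime
  have hinj : Function.Injective (aeval x : k[X] →ₐ[k] M) := transcendental_iff_injective.1 hx
  have hunit : ∀ p : P.primeCompl, IsUnit ((aeval x : k[X] →ₐ[k] M) (p : k[X])) := by
    intro p
    rw [isUnit_iff_ne_zero, Ne, map_eq_zero_iff _ hinj]
    intro h
    apply p.2
    rw [h]
    exact P.zero_mem
  let φ : Localization.AtPrime P →+* M :=
    IsLocalization.lift (M := P.primeCompl) (g := ((aeval x : k[X] →ₐ[k] M) : k[X] →+* M)) hunit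
  have hφ : ∀ p : k[X], φ (algebraMap k[X] (Localization.AtPrime P) p) = aeval x p := fun p =>
    IsLocalization.lift_eq hunit p
  obtain ⟨W, hW, hloc⟩ := IsLocalRing.exists_factor_valuationRing φ
  refine ⟨W, ?_, ?_⟩
  · intro c
    have h1 := hW (algebraMap k[X] (Localization.AtPrime P) (C c))
    rw [hφ, aeval_C] at h1
    exact h1
  · have h1 : x - algebraMap k M e = φ (algebraMap k[X] (Localization.AtPrime P) (X - C e)) := by
      rw [hφ, map_sub, aeval_X, aeval_C]
    rw [h1]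
    set a := algebraMap k[X] (Localization.AtPrime P) (X - C e) with ha
    have h2 : φ a ∈ W.nonunits ↔ (⟨φ a, hW a⟩ : W) ∈ IsLocalRing.maximalIdeal W :=
      W.coe_mem_nonunits_iff (a := ⟨φ a, hW a⟩)
    rw [h2, IsLocalRing.mem_maximalIdeal, mem_nonunits_iff]
    intro h3
    have h4 : IsUnit a := hloc.map_nonunit a h3
    rw [ha, IsLocalization.AtPrime.isUnit_to_map_iff (Localization.AtPrime P) P] at h4
    exact h4 (Ideal.mem_span_singleton_self _)

end place

section base

variable {k M : Type*} [Field k] [CharZero k] [Field M] [Algebra k M] {W : ValuationSubring M}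
  {K : Type*} [Fintype K] [DecidableEq K] (e : K → k) (he : Function.Injective e) (d : k)
  (hd : d ≠ 0) (x y : M) (hy0 : y ≠ 0)
  (hxy : algebraMap k M d * y ^ 2 = ∏ l, (x - algebraMap k M (e l)))
  (hk : ∀ c : k, algebraMap k M c ∈ W) (k0 : K) (hx0 : x - algebraMap k M (e k0) ∈ W.nonunits)

include hk hx0

omit [CharZero k] [Fintype K] [DecidableEq K] in
lemma x_mem : x ∈ W := by
  have h1 : x = (x - algebraMap k M (e k0)) + algebraMap k M (e k0) := by ring
  rw [h1]
  exact add_mem (W.nonunits_subset hx0) (hk _)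

omit [CharZero k] [Fintype K] [DecidableEq K] in
lemma Ex_sub (c : k) : Ex W y (x - algebraMap k M c) 0 (e k0 - c) := by
  unfold Ex
  have h1 : (x - algebraMap k M c) / y ^ (0 : ℤ) - algebraMap k M (e k0 - c) =
      x - algebraMap k M (e k0) := by
    rw [zpow_zero, div_one, map_sub]
    ring
  rw [h1]
  exact hx0

omit hk hx0 [CharZero k] [Fintype K] [DecidableEq K] in
lemma Ex.prod' {M : Type*} [Field M] [Algebra k M] {W : ValuationSubring M} {y : M} (hy0 : y ≠ 0)
    (hk : ∀ c : k, algebraMap k M c ∈ W)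
    {I : Type*} (J : Finset I) (z : I → M) (n : I → ℤ) (r : I → k)
    (h : ∀ i ∈ J, Ex W y (z i) (n i) (r i)) :
    Ex W y (∏ i ∈ J, z i) (∑ i ∈ J, n i) (∏ i ∈ J, r i) := by
  classical
  induction J using Finset.induction_on with
  | empty =>
    rw [Finset.prod_empty, Finset.sum_empty, Finset.prod_empty]
    have h1 := Ex.const (W := W) (y := y) hk (1 : k)
    rwa [map_one] at h1
  | insert a J ha ih =>
    rw [Finset.prod_insert ha, Finset.sum_insert ha, Finset.prod_insert ha]
    exact (h a (Finset.mem_insert_self a J)).mul hk hy0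
      (ih fun i hi => h i (Finset.mem_insert_of_mem hi))

omit hk hx0 [CharZero k] [Fintype K] [DecidableEq K] in
lemma Ex.pow' {M : Type*} [Field M] [Algebra k M] {W : ValuationSubring M} {y : M} (hy0 : y ≠ 0)
    (hk : ∀ c : k, algebraMap k M c ∈ W) {z : M} {n : ℤ} {r : k} (h : Ex W y z n r) (m : ℕ) :
    Ex W y (z ^ m) (m * n) (r ^ m) := by
  have h1 := Ex.prod' hy0 hk (Finset.range m) (fun _ => z) (fun _ => n) (fun _ => r)
    (fun _ _ => h)
  simpa using h1

include hy0 hxy hd he in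
omit [CharZero k] in
/-- the expansion of `x - e k0` -/
lemma Ex_x : Ex W y (x - algebraMap k M (e k0)) 2
    (d * (∏ l ∈ Finset.univ.erase k0, (e k0 - e l))⁻¹) ∧
    d * (∏ l ∈ Finset.univ.erase k0, (e k0 - e l))⁻¹ ≠ 0 ∧ y ∈ W.nonunits := by
  have hr : ∏ l ∈ Finset.univ.erase k0, (e k0 - e l) ≠ 0 :=
    Finset.prod_ne_zero_iff.2 fun l hl =>
      sub_ne_zero.2 (he.ne (Finset.ne_of_mem_erase hl).symm)
  set Pr : M := ∏ l ∈ Finset.univ.erase k0, (x - algebraMap k M (e l)) with hPr
  have hP : Ex W y Pr 0 (∏ l ∈ Finset.univ.erase k0, (e k0 - e l)) := by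
    have h1 := Ex.prod' hy0 hk (Finset.univ.erase k0)
      (fun l => x - algebraMap k M (e l)) (fun _ => 0) (fun l => e k0 - e l)
      (fun l _ => Ex_sub (y := y) e x hk k0 hx0 (e l))
    rwa [Finset.sum_const_zero] at h1
  have hP0 : Pr ≠ 0 := hP.ne hk hr
  have hx : x - algebraMap k M (e k0) = algebraMap k M d * y ^ 2 * Pr⁻¹ := by
    rw [hxy, ← Finset.mul_prod_erase Finset.univ (fun l => x - algebraMap k M (e l))
      (Finset.mem_univ k0), ← hPr, mul_assoc, mul_inv_cancel₀ hP0, mul_one]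
  have hy1 : Ex W y (y ^ 2) 2 (1 : k) := by
    unfold Ex
    have h1 : y ^ 2 / y ^ (2 : ℤ) - algebraMap k M 1 = 0 := by
      rw [map_one, zpow_ofNat, div_self (pow_ne_zero 2 hy0), sub_self]
    rw [h1, ValuationSubring.mem_nonunits_iff_or]
    exact Or.inl rfl
  refine ⟨?_, mul_ne_zero hd (inv_ne_zero hr), ?_⟩
  · have h1 := ((Ex.const (W := W) (y := y) hk d).mul hk hy0 hy1).mul hk hy0 (hP.inv hk hr)
    rw [← hx] at h1
    simpa using h1
  · -- `y` is a nonunit
    have hPu : IsU W Pr := by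
      have h1 := hP.isU hk hr
      rwa [zpow_zero, div_one] at h1
    have hy2 : y ^ 2 ∈ W.nonunits := by
      have h1 : y ^ 2 = (algebraMap k M d)⁻¹ * Pr * (x - algebraMap k M (e k0)) := by
        have hd' : algebraMap k M d ≠ 0 := (_root_.map_ne_zero _).2 hd
        rw [hx]
        field_simp
      rw [h1]
      exact nonunit_mul (mul_mem (const_isU hk hd).2.2 hPu.2.1) hx0
    rw [ValuationSubring.mem_nonunits_iff_or] at hy2 ⊢
    rcases hy2 with h | h
    · exact absurd h (pow_ne_zero 2 hy0)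
    · refine Or.inr fun h' => h ?_
      rw [← inv_pow]
      exact pow_mem h' 2

include hy0 hxy hd he in
omit [CharZero k] in
/-- expansions of the elements of `k(x)` -/
lemma Ex_poly (p : k[X]) (hp : p ≠ 0) : ∃ (m : ℤ) (r : k), r ≠ 0 ∧ Ex W y (aeval x p) (2 * m) r := by
  obtain ⟨q, hq, hq'⟩ := exists_eq_pow_rootMultiplicity_mul_and_not_dvd p hp (e k0)
  obtain ⟨h1, h2, h3⟩ := Ex_x e he d hd x y hy0 hxy hk k0 hx0
  have hq0 : q.eval (e k0) ≠ 0 := by
    intro h
    exact hq' (dvd_iff_isRoot.2 h)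
  have hqe : Ex W y (aeval x q) 0 (q.eval (e k0)) := by
    obtain ⟨s, hs⟩ := X_sub_C_dvd_sub_C_eval (a := e k0) (p := q)
    unfold Ex
    have h5 : aeval x q / y ^ (0 : ℤ) - algebraMap k M (q.eval (e k0)) =
        aeval x s * (x - algebraMap k M (e k0)) := by
      have h6 := congrArg (aeval x) hs
      rw [map_sub, aeval_C, map_mul, map_sub, aeval_X, aeval_C] at h6
      rw [zpow_zero, div_one, h6, mul_comm]
    rw [h5]
    refine nonunit_mul ?_ hx0
    have hxW := x_mem e x hk k0 hx0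
    rw [aeval_eq_sum_range]
    refine sum_mem fun i _ => ?_
    rw [Algebra.smul_def]
    exact mul_mem (hk _) (pow_mem hxW _)
  have h6 := (h1.pow' hy0 hk (p.rootMultiplicity (e k0))).mul hk hy0 hqe
  have h7 : aeval x p = (x - algebraMap k M (e k0)) ^ p.rootMultiplicity (e k0) * aeval x q := by
    conv_lhs => rw [hq]
    rw [map_mul, map_pow, map_sub, aeval_X, aeval_C]
  have h8 : ((p.rootMultiplicity (e k0) : ℕ) : ℤ) * 2 + 0 = 2 * (p.rootMultiplicity (e k0) : ℤ) := by
    ring
  rw [h8, ← h7] at h6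
  exact ⟨p.rootMultiplicity (e k0), _, mul_ne_zero (pow_ne_zero _ h2) hq0, h6⟩

include hy0 hxy hd he in
/-- all elements of `k(x, y)` have leading terms with coefficients in `k` -/
theorem good_base : ∃ T : Subfield M, (∀ c : k, algebraMap k M c ∈ T) ∧ x ∈ T ∧ y ∈ T ∧
    Good k W y T ∧ ∀ R : Subfield M, (∀ c : k, algebraMap k M c ∈ R) → x ∈ R → y ∈ R → T ≤ R := by
  obtain ⟨-, -, hyn⟩ := Ex_x e he d hd x y hy0 hxy hk k0 hx0
  set T₁ : Subfield M := (IntermediateField.adjoin k {x}).toSubfield with hT₁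
  have hkT : ∀ c : k, algebraMap k M c ∈ T₁ := fun c =>
    (IntermediateField.adjoin k {x}).algebraMap_mem c
  have hxT : x ∈ T₁ := IntermediateField.mem_adjoin_simple_self k x
  have hg1 : ∀ z ∈ T₁, z ≠ 0 → ∃ (m : ℤ) (r : k), r ≠ 0 ∧ Ex W y z (2 * m) r := by
    intro z hz hz0
    have hz' : z ∈ IntermediateField.adjoin k {x} := hz
    rw [IntermediateField.mem_adjoin_simple_iff] at hz'
    obtain ⟨p, q, rfl⟩ := hz'
    have hp : p ≠ 0 := by
      rintro rfl
      rw [map_zero, zero_div] at hz0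
      exact hz0 rfl
    have hq : q ≠ 0 := by
      rintro rfl
      rw [map_zero, div_zero] at hz0
      exact hz0 rfl
    obtain ⟨m, r, hr, h⟩ := Ex_poly e he d hd x y hy0 hxy hk k0 hx0 p hp
    obtain ⟨m', r', hr', h'⟩ := Ex_poly e he d hd x y hy0 hxy hk k0 hx0 q hq
    refine ⟨m - m', r * r'⁻¹, mul_ne_zero hr (inv_ne_zero hr'), ?_⟩
    have h1 := h.mul hk hy0 (h'.inv hk hr')
    rw [← div_eq_mul_inv] at h1
    have h2 : 2 * (m - m') = 2 * m + -(2 * m') := by ring
    rw [h2]
    exact h1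
  have hy2 : y ^ 2 ∈ T₁ := by
    have h1 : y ^ 2 = (algebraMap k M d)⁻¹ * ∏ l, (x - algebraMap k M (e l)) := by
      rw [← hxy, ← mul_assoc, inv_mul_cancel₀ ((_root_.map_ne_zero _).2 hd), one_mul]
    rw [h1]
    exact mul_mem (inv_mem (hkT d)) (prod_mem fun l _ => sub_mem hxT (hkT _))
  obtain ⟨T, h1, h2, h3, h4⟩ := exists_quad T₁ y hy2
  refine ⟨T, fun c => h1 (hkT c), h1 hxT, h2, ?_, ?_⟩
  · intro z hz hz0
    obtain ⟨a, ha, b, hb, rfl⟩ := h3 z hz
    have hye : Ex W y y 1 (1 : k) := by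
      unfold Ex
      rw [zpow_one, div_self hy0, map_one, sub_self, ValuationSubring.mem_nonunits_iff_or]
      exact Or.inl rfl
    by_cases hb0 : b = 0
    · rw [hb0, zero_mul, add_zero] at hz0 ⊢
      obtain ⟨m, r, hr, h⟩ := hg1 a ha hz0
      exact ⟨_, r, hr, h⟩
    obtain ⟨m', r', hr', h'⟩ := hg1 b hb hb0
    have hb' : Ex W y (b * y) (2 * m' + 1) r' := by
      have h5 := h'.mul hk hy0 hye
      rwa [mul_one] at h5
    by_cases ha0 : a = 0
    · rw [ha0, zero_add]
      exact ⟨_, r', hr', hb'⟩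
    obtain ⟨m, r, hr, h⟩ := hg1 a ha ha0
    rcases lt_trichotomy (2 * m) (2 * m' + 1) with hn | hn | hn
    · exact ⟨_, r, hr, h.add_lt hk hyn hy0 hb' hn⟩
    · omega
    · refine ⟨2 * m' + 1, r', hr', ?_⟩
      rw [add_comm]
      exact hb'.add_lt hk hyn hy0 h hn
  · intro R hkR hxR hyR
    refine h4 R ?_ hyR
    intro z hz
    have hz' : z ∈ IntermediateField.adjoin k {x} := hz
    rw [IntermediateField.mem_adjoin_simple_iff] at hz'
    obtain ⟨p, q, rfl⟩ := hz'
    have hpol : ∀ p : k[X], aeval x p ∈ R := by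
      intro p
      rw [aeval_eq_sum_range]
      refine sum_mem fun i _ => ?_
      rw [Algebra.smul_def]
      exact mul_mem (hkR _) (pow_mem hxR _)
    exact div_mem (hpol p) (hpol q)

end base

end Pool.Agent.W623.SecG
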