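import Pool.Agent.W623.SecC.Unr

/-! # Expansions at a rational place -/

namespace Pool.Agent.W623.SecG

open Pool.Agent.W623.SecC Polynomial

section ex

variable {k M : Type*} [Field k] [Field M] [Algebra k M] (W : ValuationSubring M) (y : M)

/-- `z = r y ^ n + ...` -/
def Ex (z : M) (n : ℤ) (r : k) : Prop := z / y ^ n - algebraMap k M r ∈ W.nonunits

variable {W y}

lemma non_mul {a b : M} (ha : a ∈ W) (hb : b ∈ W.nonunits) : b * a ∈ W.nonunits := by
  rw [mul_comm]
  exact nonunit_mul ha hb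

variable (hk : ∀ c : k, algebraMap k M c ∈ W) (hy : y ∈ W.nonunits) (hy0 : y ≠ 0)

include hk in
lemma Ex.mem {z : M} {n : ℤ} {r : k} (h : Ex W y z n r) : z / y ^ n ∈ W := by
  have h1 : z / y ^ n = (z / y ^ n - algebraMap k M r) + algebraMap k M r := by ring
  rw [h1]
  exact add_mem (W.nonunits_subset h) (hk r)

include hk in
lemma const_isU {c : k} (hc : c ≠ 0) : IsU W (algebraMap k M c) :=
  ⟨(_root_.map_ne_zero _).2 hc, hk c, by rw [← map_inv₀]; exact hk _⟩

include hk in
lemma Ex.isU {z : M} {n : ℤ} {r : k} (h : Ex W y z n r) (hr : r ≠ 0) : IsU W (z / y ^ n) := by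
  have h1 : z / y ^ n = algebraMap k M r + (z / y ^ n - algebraMap k M r) := by ring
  rw [h1]
  exact isU_add_nonunit (const_isU hk hr) h

include hk in
lemma Ex.ne {z : M} {n : ℤ} {r : k} (h : Ex W y z n r) (hr : r ≠ 0) : z ≠ 0 := by
  rintro rfl
  have h1 := (h.isU hk hr).1
  rw [zero_div] at h1
  exact h1 rfl

include hk hy0 in
lemma Ex.mul {z z' : M} {n n' : ℤ} {r r' : k} (h : Ex W y z n r) (h' : Ex W y z' n' r') :
    Ex W y (z * z') (n + n') (r * r') := by
  unfold Ex
  have h1 : z * z' / y ^ (n + n') - algebraMap k M (r * r') =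
      (z' / y ^ n') * (z / y ^ n - algebraMap k M r) +
        algebraMap k M r * (z' / y ^ n' - algebraMap k M r') := by
    rw [zpow_add₀ hy0, map_mul, mul_div_mul_comm]
    ring
  rw [h1]
  exact add_mem (nonunit_mul (h'.mem hk) h) (nonunit_mul (hk r) h')

include hk in
lemma Ex.inv {z : M} {n : ℤ} {r : k} (h : Ex W y z n r) (hr : r ≠ 0) :
    Ex W y z⁻¹ (-n) r⁻¹ := by
  unfold Ex
  have hu := h.isU hk hr
  have hr' : algebraMap k M r ≠ 0 := (_root_.map_ne_zero _).2 hr
  have h1 : z⁻¹ / y ^ (-n) - algebraMap k M r⁻¹ =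
      (-((z / y ^ n)⁻¹ * algebraMap k M r⁻¹)) * (z / y ^ n - algebraMap k M r) := by
    have h2 : z⁻¹ / y ^ (-n) = (z / y ^ n)⁻¹ := by
      rw [zpow_neg, inv_div, div_inv_eq_mul, div_eq_mul_inv, mul_comm]
    rw [h2, map_inv₀]
    have h3 := hu.1
    generalize z / y ^ n = w at h3 ⊢
    field_simp
    ring
  rw [h1]
  exact nonunit_mul (neg_mem (mul_mem hu.2.2 (hk _))) h

lemma Ex.add {z z' : M} {n : ℤ} {r r' : k} (h : Ex W y z n r) (h' : Ex W y z' n r') :
    Ex W y (z + z') n (r + r') := by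
  unfold Ex
  have h1 : (z + z') / y ^ n - algebraMap k M (r + r') =
      (z / y ^ n - algebraMap k M r) + (z' / y ^ n - algebraMap k M r') := by
    rw [map_add, add_div]
    ring
  rw [h1]
  exact add_mem h h'

include hk hy hy0 in
lemma Ex.low {z : M} {n n' : ℤ} {r : k} (h : Ex W y z n r) (hn : n' < n) : Ex W y z n' (0 : k) := by
  unfold Ex
  obtain ⟨m, hm⟩ := Int.eq_ofNat_of_zero_le (show 0 ≤ n - n' by omega)
  have hm' : n = n' + (m : ℤ) := by omega
  have h1 : z / y ^ n' - algebraMap k M 0 = (z / y ^ n) * y ^ m := by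
    rw [map_zero, sub_zero, hm', zpow_add₀ hy0, zpow_natCast]
    have h2 : y ^ n' ≠ 0 := zpow_ne_zero _ hy0
    have h3 : y ^ m ≠ 0 := pow_ne_zero _ hy0
    field_simp
  rw [h1]
  exact nonunit_mul (h.mem hk) (pow_nonunit hy (by omega))

include hk hy hy0 in
lemma Ex.add_lt {z z' : M} {n n' : ℤ} {r r' : k} (h : Ex W y z n r) (h' : Ex W y z' n' r')
    (hn : n < n') : Ex W y (z + z') n r := by
  have h1 := h.add (h'.low hk hy hy0 hn)
  rwa [add_zero] at h1

lemma Ex.const_mul_one {z : M} (h : z - 1 ∈ W.nonunits) : Ex W y z 0 (1 : k) := by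
  unfold Ex
  rw [zpow_zero, div_one, map_one]
  exact h

lemma Ex.const (hk : ∀ c : k, algebraMap k M c ∈ W) (r : k) : Ex W y (algebraMap k M r) 0 r := by
  unfold Ex
  rw [zpow_zero, div_one, sub_self, ValuationSubring.mem_nonunits_iff_or]
  exact Or.inl rfl

variable (k W y) in
/-- all elements of `T` have a leading term with coefficient in `k` -/
def Good (T : Subfield M) : Prop := ∀ z ∈ T, z ≠ 0 → ∃ (n : ℤ) (r : k), r ≠ 0 ∧ Ex W y z n r

/-- adjoining a square root -/
theorem exists_quad {M : Type*} [Field M] (T : Subfield M) (δ : M) (hδ2 : δ ^ 2 ∈ T) :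
    ∃ T' : Subfield M, T ≤ T' ∧ δ ∈ T' ∧ (∀ z ∈ T', ∃ a ∈ T, ∃ b ∈ T, z = a + b * δ) ∧
      ∀ R : Subfield M, T ≤ R → δ ∈ R → T' ≤ R := by
  by_cases hδT : δ ∈ T
  · exact ⟨T, le_rfl, hδT, fun z hz => ⟨z, hz, 0, zero_mem T, by ring⟩, fun R h _ => h⟩
  refine ⟨{ carrier := {x | ∃ a ∈ T, ∃ b ∈ T, x = a + b * δ}
            mul_mem' := ?_
            one_mem' := ⟨1, one_mem T, 0, zero_mem T, by ring⟩
            add_mem' := ?_
            zero_mem' := ⟨0, zero_mem T, 0, zero_mem T, by ring⟩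
            neg_mem' := ?_
            inv_mem' := ?_ }, ?_, ?_, ?_, ?_⟩
  · rintro x z ⟨a, ha, b, hb, rfl⟩ ⟨c, hc, d, hd, rfl⟩
    refine ⟨a * c + b * d * δ ^ 2, add_mem (mul_mem ha hc) (mul_mem (mul_mem hb hd) hδ2),
      a * d + b * c, add_mem (mul_mem ha hd) (mul_mem hb hc), ?_⟩
    ring
  · rintro x z ⟨a, ha, b, hb, rfl⟩ ⟨c, hc, d, hd, rfl⟩
    exact ⟨a + c, add_mem ha hc, b + d, add_mem hb hd, by ring⟩
  · rintro x ⟨a, ha, b, hb, rfl⟩
    exact ⟨-a, neg_mem ha, -b, neg_mem hb, by ring⟩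
  · rintro x ⟨a, ha, b, hb, rfl⟩
    by_cases hN : a ^ 2 - b ^ 2 * δ ^ 2 = 0
    · by_cases hb0 : b = 0
      · subst hb0
        exact ⟨a⁻¹, inv_mem ha, 0, zero_mem T, by simp⟩
      · exfalso
        apply hδT
        have h1 : (a / b) ^ 2 = δ ^ 2 := by
          rw [div_pow, div_eq_iff (pow_ne_zero 2 hb0)]
          linear_combination hN
        rcases sq_eq_sq_iff_eq_or_eq_neg.1 h1 with h | h
        · rw [← h]; exact div_mem ha hb
        · have : δ = -(a / b) := by rw [h, neg_neg]
          rw [this]; exact neg_mem (div_mem ha hb)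
    · have hmem : a ^ 2 - b ^ 2 * δ ^ 2 ∈ T := sub_mem (pow_mem ha 2) (mul_mem (pow_mem hb 2) hδ2)
      refine ⟨a / (a ^ 2 - b ^ 2 * δ ^ 2), div_mem ha hmem, -b / (a ^ 2 - b ^ 2 * δ ^ 2),
        div_mem (neg_mem hb) hmem, ?_⟩
      have hx0 : a + b * δ ≠ 0 := by
        intro h
        apply hN
        have : a ^ 2 - b ^ 2 * δ ^ 2 = (a + b * δ) * (a - b * δ) := by ring
        rw [this, h, zero_mul]
      apply inv_eq_of_mul_eq_one_right
      field_simp
      ring
  · intro x hx
    exact ⟨x, hx, 0, zero_mem T, by ring⟩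
  · exact ⟨0, zero_mem T, 1, one_mem T, by ring⟩
  · intro z hz
    exact hz
  · rintro R hTR hδR x ⟨a, ha, b, hb, rfl⟩
    exact add_mem (hTR ha) (mul_mem (hTR hb) hδR)

include hk hy hy0 in
/-- adjoining a square root congruent to `1` -/
theorem Good.step [CharZero k] {T : Subfield M} (hT : Good k W y T) {δ : M} (hδ2 : δ ^ 2 ∈ T)
    (hδ : δ - 1 ∈ W.nonunits) :
    ∃ T' : Subfield M, T ≤ T' ∧ δ ∈ T' ∧ Good k W y T' ∧
      ∀ R : Subfield M, T ≤ R → δ ∈ R → T' ≤ R := by
  have hδe : Ex W y δ 0 (1 : k) := Ex.const_mul_one hδ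
  obtain ⟨T', h1, h2, h3, h4⟩ := exists_quad T δ hδ2
  refine ⟨T', h1, h2, ?_, h4⟩
  intro z hz hz0
  obtain ⟨a, ha, b, hb, rfl⟩ := h3 z hz
  by_cases hb0 : b = 0
  · rw [hb0, zero_mul, add_zero] at hz0 ⊢
    exact hT a ha hz0
  by_cases ha0 : a = 0
  · rw [ha0, zero_add]
    obtain ⟨n, r, hr, h⟩ := hT b hb hb0
    refine ⟨n, r, hr, ?_⟩
    have h1 := h.mul hk hy0 hδe
    rwa [add_zero, mul_one] at h1
  obtain ⟨n, r, hr, h⟩ := hT a ha ha0
  obtain ⟨n', r', hr', h'⟩ := hT b hb hb0
  have hb' : Ex W y (b * δ) n' r' := by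
    have h1 := h'.mul hk hy0 hδe
    rwa [add_zero, mul_one] at h1
  rcases lt_trichotomy n n' with hn | hn | hn
  · exact ⟨n, r, hr, h.add_lt hk hy hy0 hb' hn⟩
  · subst hn
    by_cases hrr : r + r' = 0
    · have hr'' : r' = -r := by linear_combination hrr
      have hbneg : Ex W y (-(b * δ)) n r := by
        have h1 := (Ex.const (W := W) (y := y) hk (-1 : k)).mul hk hy0 hb'
        rw [map_neg, map_one, neg_one_mul, zero_add, hr'', neg_one_mul, neg_neg] at h1
        exact h1
      have hconj : Ex W y (a - b * δ) n (r + r) := by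
        rw [sub_eq_add_neg]
        exact h.add hbneg
      have h2r : r + r ≠ 0 := by
        rw [← two_mul]
        exact mul_ne_zero two_ne_zero hr
      have hc0 := hconj.ne hk h2r
      have hmem : a ^ 2 - b ^ 2 * δ ^ 2 ∈ T := sub_mem (pow_mem ha 2) (mul_mem (pow_mem hb 2) hδ2)
      have hprod : a ^ 2 - b ^ 2 * δ ^ 2 = (a + b * δ) * (a - b * δ) := by ring
      obtain ⟨n'', r'', hr'', h''⟩ := hT _ hmem (by
        rw [hprod]
        exact mul_ne_zero hz0 hc0)
      refine ⟨n'' + -n, r'' * (r + r)⁻¹, mul_ne_zero hr'' (inv_ne_zero h2r), ?_⟩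
      have h1 := h''.mul hk hy0 (hconj.inv hk h2r)
      rwa [hprod, mul_assoc, mul_inv_cancel₀ hc0, mul_one] at h1
    · exact ⟨n, r + r', hrr, h.add hb'⟩
  · refine ⟨n', r', hr', ?_⟩
    rw [add_comm]
    exact hb'.add_lt hk hy hy0 h hn

include hk hy hy0 in
/-- adjoining several square roots -/
theorem Good.adjoin [CharZero k] {T : Subfield M} (hT : Good k W y T) (S : Finset M)
    (hS : ∀ δ ∈ S, δ ^ 2 ∈ T ∧ δ - 1 ∈ W.nonunits) :
    ∃ T' : Subfield M, T ≤ T' ∧ (∀ δ ∈ S, δ ∈ T') ∧ Good k W y T' ∧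
      ∀ R : Subfield M, T ≤ R → (∀ δ ∈ S, δ ∈ R) → T' ≤ R := by
  classical
  induction S using Finset.induction_on with
  | empty => exact ⟨T, le_rfl, fun δ hδ => absurd hδ (Finset.notMem_empty δ), hT, fun R h _ => h⟩
  | insert a S ha ih =>
    obtain ⟨T₁, h1, h2, h3, h4⟩ := ih fun δ hδ => hS δ (Finset.mem_insert_of_mem hδ)
    obtain ⟨T₂, h5, h6, h7, h8⟩ := h3.step hk hy hy0
      (h1 (hS a (Finset.mem_insert_self a S)).1) (hS a (Finset.mem_insert_self a S)).2
    refine ⟨T₂, h1.trans h5, ?_, h7, ?_⟩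
    · intro δ hδ
      rcases Finset.mem_insert.1 hδ with rfl | hδ
      · exact h6
      · exact h5 (h2 δ hδ)
    · intro R hR hSR
      exact h8 R (h4 R hR fun δ hδ => hSR δ (Finset.mem_insert_of_mem hδ))
        (hSR a (Finset.mem_insert_self a S))

end ex

section span

variable {k M A : Type*} [Field k] [Field M] [Algebra k M] [Field A] [Algebra k A]
  {W : ValuationSubring M} {y : M} (hy : y ∈ W.nonunits) (hy0 : y ≠ 0) (ι : A →+* M)
  (hι : ∀ c : k, ι (algebraMap k A c) = algebraMap k M c) (hW : ∀ a, ι a ∈ W)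
  {T : Subfield M} (hT : Good k W y T)

include hy hy0 hι hW hT in
/-- a sum with linearly independent coefficients is integral iff all the terms are -/
theorem sum_mem_iff {I : Type*} (J : Finset I) (t : I → M) (ht : ∀ i, t i ∈ T) (c : I → A)
    (hc : LinearIndependent k c) : ∑ i ∈ J, t i * ι (c i) ∈ W ↔ ∀ i ∈ J, t i ∈ W := by
  classical
  have hk : ∀ c : k, algebraMap k M c ∈ W := fun c => by rw [← hι]; exact hW _
  constructor
  · intro h
    by_contra hcon
    push Not at hcon
    obtain ⟨i1, hi1, hi1W⟩ := hcon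
    set J' := J.filter fun i => t i ≠ 0 with hJ'
    have hex : ∀ i : I, ∃ (n : ℤ) (r : k), t i ≠ 0 → r ≠ 0 ∧ Ex W y (t i) n r := by
      intro i
      by_cases h0 : t i = 0
      · exact ⟨0, 0, fun h => absurd h0 h⟩
      · obtain ⟨n, r, hr, he⟩ := hT _ (ht i) h0
        exact ⟨n, r, fun _ => ⟨hr, he⟩⟩
    choose n r hnr using hex
    have hi10 : t i1 ≠ 0 := by
      intro h0
      rw [h0] at hi1W
      exact hi1W (zero_mem _)
    have hne : J'.Nonempty := ⟨i1, by rw [hJ', Finset.mem_filter]; exact ⟨hi1, hi10⟩⟩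
    obtain ⟨i0, hi0, hmin⟩ := J'.exists_min_image n hne
    rw [hJ', Finset.mem_filter] at hi0
    -- the minimum is negative
    have hneg : n i0 < 0 := by
      by_contra hge
      push Not at hge
      have h1 : 0 ≤ n i1 := le_trans hge (hmin i1 (by rw [hJ', Finset.mem_filter]; exact ⟨hi1, hi10⟩))
      apply hi1W
      obtain ⟨m, hm⟩ := Int.eq_ofNat_of_zero_le h1
      have h2 : t i1 = (t i1 / y ^ n i1) * y ^ m := by
        rw [hm]
        simp only [Int.ofNat_eq_natCast, zpow_natCast]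
        rw [div_mul_cancel₀ _ (pow_ne_zero _ hy0)]
      rw [h2]
      exact mul_mem ((hnr i1 hi10).2.mem hk) (pow_mem (W.nonunits_subset hy) _)
    -- the leading coefficient
    set β : A := ∑ i ∈ J'.filter (fun i => n i = n i0), algebraMap k A (r i) * c i with hβ
    have hβ0 : β ≠ 0 := by
      intro h0
      have h1 := linearIndependent_iff'.1 hc (J'.filter (fun i => n i = n i0)) r (by
        rw [← h0, hβ]
        exact Finset.sum_congr rfl fun i _ => Algebra.smul_def _ _) i0 (by
          rw [Finset.mem_filter, hJ', Finset.mem_filter]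
          exact ⟨hi0, rfl⟩)
      exact (hnr i0 hi0.2).1 h1
    have hsum : (∑ i ∈ J, t i * ι (c i)) / y ^ n i0 - ι β ∈ W.nonunits := by
      have h1 : ∑ i ∈ J, t i * ι (c i) = ∑ i ∈ J', t i * ι (c i) := by
        rw [hJ', Finset.sum_filter]
        refine Finset.sum_congr rfl fun i _ => ?_
        split_ifs with h
        · rfl
        · push Not at h
          rw [h, zero_mul]
      have h2 : ι β = ∑ i ∈ J', (if n i = n i0 then algebraMap k M (r i) * ι (c i) else 0) := by
        rw [← Finset.sum_filter, hβ, map_sum]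
        exact Finset.sum_congr rfl fun i _ => by rw [map_mul, hι]
      rw [h1, h2, Finset.sum_div, ← Finset.sum_sub_distrib]
      refine sum_mem fun i hi => ?_
      have hi' := hi
      rw [hJ', Finset.mem_filter] at hi'
      obtain ⟨hr, he⟩ := hnr i hi'.2
      split_ifs with h
      · have h3 : t i * ι (c i) / y ^ n i0 - algebraMap k M (r i) * ι (c i) =
            ι (c i) * (t i / y ^ n i - algebraMap k M (r i)) := by
          rw [h]
          ring
        rw [h3]
        exact nonunit_mul (hW _) he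
      · have h3 := he.low hk hy hy0 (lt_of_le_of_ne (hmin i hi) (Ne.symm h))
        unfold Ex at h3
        rw [map_zero, sub_zero] at h3
        have h5 : t i * ι (c i) / y ^ n i0 - 0 = ι (c i) * (t i / y ^ n i0) := by ring
        rw [h5]
        exact nonunit_mul (hW _) h3
    have hu : IsU W ((∑ i ∈ J, t i * ι (c i)) / y ^ n i0) := by
      have h1 : (∑ i ∈ J, t i * ι (c i)) / y ^ n i0 =
        ι β + ((∑ i ∈ J, t i * ι (c i)) / y ^ n i0 - ι β) := by ring
      rw [h1]
      refine isU_add_nonunit ⟨(_root_.map_ne_zero _).2 hβ0, hW _, ?_⟩ hsum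
      rw [← map_inv₀]
      exact hW _
    apply hu.not_nonunit
    obtain ⟨m, hm⟩ := Int.eq_ofNat_of_zero_le (show 0 ≤ -n i0 by omega)
    have hm' : n i0 = -(m : ℤ) := by omega
    rw [hm', zpow_neg, div_inv_eq_mul, zpow_natCast]
    exact nonunit_mul h (pow_nonunit hy (by omega))
  · intro h
    exact sum_mem fun i hi => mul_mem (h i hi) (hW _)

/-- the elements of the compositum of `T` and `A` -/
theorem repr_compositum [Algebra.IsAlgebraic k A] (hkT : ∀ c : k, algebraMap k M c ∈ T)
    (hι : ∀ c : k, ι (algebraMap k A c) = algebraMap k M c) {I : Type*}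
    (b : Module.Basis I k A) (z : M)
    (hz : z ∈ Subfield.closure ((T : Set M) ∪ Set.range ι)) :
    ∃ (J : Finset I) (t : I → M), (∀ i, t i ∈ T) ∧ z = ∑ i ∈ J, t i * ι (b i) := by
  classical
  -- the sums form a subfield
  have halg : ∀ x ∈ Set.range ι, IsAlgebraic T x := by
    rintro _ ⟨a, rfl⟩
    obtain ⟨p, hp, hpa⟩ := Algebra.IsAlgebraic.isAlgebraic (R := k) a
    let j : k →+* T := (algebraMap k M).codRestrict T hkT
    refine ⟨p.map j, (Polynomial.map_ne_zero_iff j.injective).2 hp, ?_⟩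
    rw [aeval_def, eval₂_map]
    have h1 : (algebraMap T M).comp j = ι.comp (algebraMap k A) := by
      ext c
      exact (hι c).symm
    rw [h1, ← hom_eval₂]
    change ι (aeval a p) = 0
    rw [hpa, map_zero]
  have h1 : z ∈ IntermediateField.adjoin T (Set.range ι) := by
    have h2 : Subfield.closure ((T : Set M) ∪ Set.range ι) ≤
        (IntermediateField.adjoin T (Set.range ι)).toSubfield := by
      rw [Subfield.closure_le]
      rintro x (hx | hx)
      · exact (IntermediateField.adjoin T (Set.range ι)).algebraMap_mem ⟨x, hx⟩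
      · exact IntermediateField.subset_adjoin T _ hx
    exact h2 hz
  have h2 : z ∈ Algebra.adjoin T (Set.range ι) := by
    rw [← IntermediateField.adjoin_toSubalgebra_of_isAlgebraic halg]
    exact h1
  have h3 : z ∈ Submodule.span T (Set.range ι) := by
    have h5 : z ∈ Subalgebra.toSubmodule (Algebra.adjoin T (Set.range ι)) := h2
    rw [Algebra.adjoin_eq_span] at h5
    have h6 : ((Submonoid.closure (Set.range ι) : Submonoid M) : Set M) = Set.range ι := by
      have h7 : (Submonoid.closure (Set.range ι)) = MonoidHom.mrange (ι : A →* M) :=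
        le_antisymm (Submonoid.closure_le.2 fun x hx => hx) (fun x hx => Submonoid.subset_closure hx)
      rw [h7]
      rfl
    rwa [h6] at h5
  clear hz h1 h2
  induction h3 using Submodule.span_induction with
  | mem x hx =>
    obtain ⟨a, rfl⟩ := hx
    refine ⟨(b.repr a).support, fun i => algebraMap k M (b.repr a i), fun i => hkT _, ?_⟩
    conv_lhs => rw [← b.linearCombination_repr a]
    rw [Finsupp.linearCombination_apply, Finsupp.sum, map_sum]
    exact Finset.sum_congr rfl fun i _ => by rw [Algebra.smul_def, map_mul, hι]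
  | zero => exact ⟨∅, fun _ => 0, fun _ => zero_mem _, by simp⟩
  | add x x' _ _ hx hx' =>
    obtain ⟨J, t, ht, rfl⟩ := hx
    obtain ⟨J', t', ht', rfl⟩ := hx'
    refine ⟨J ∪ J', fun i => (if i ∈ J then t i else 0) + (if i ∈ J' then t' i else 0), ?_, ?_⟩
    · intro i
      refine add_mem ?_ ?_
      · split_ifs
        · exact ht i
        · exact zero_mem _
      · split_ifs
        · exact ht' i
        · exact zero_mem _
    · simp only [add_mul, ite_mul, zero_mul]
      rw [Finset.sum_add_distrib, ← Finset.sum_filter, ← Finset.sum_filter]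
      congr 2
      · ext i
        simp only [Finset.mem_filter, Finset.mem_union]
        tauto
      · ext i
        simp only [Finset.mem_filter, Finset.mem_union]
        tauto
  | smul a x _ hx =>
    obtain ⟨J, t, ht, rfl⟩ := hx
    refine ⟨J, fun i => (a : M) * t i, fun i => mul_mem a.2 (ht i), ?_⟩
    rw [Finset.smul_sum]
    refine Finset.sum_congr rfl fun i _ => ?_
    rw [mul_assoc]
    rfl

end span

end Pool.Agent.W623.SecG
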